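import Pool.Agent.BoltzM.En.Flux

/-!
The transport inequality on the torus.
-/

set_option autoImplicit false

open Pool.Agent.BoltzM.BoltzC Finset

noncomputable section

namespace Pool.Agent.BoltzM

variable [Dim]

namespace Trn

variable {σ : E3 → ℝ} {G : E3 → SV}

lemma zz_nonneg (j : ℕ) (x : E3) : 0 ≤ zz j σ G x :=
  mul_nonneg (by rw [pow_mul']; positivity) (sum_nonneg fun _ _ => ip_self_nonneg _)

lemma yw_nonneg (hV : VStmt) (n : ℕ) (x : E3) : 0 ≤ yw n σ G x :=
  KK.lev_nonneg zero_le_one fun _ _ => sum_nonneg fun _ _ => hV.wq_nonneg _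

lemma term_le_zz (u : List Ix) (x : E3) :
    σ x ^ (2 * u.length) * ip (PP (dXw u G x)) (PP (dXw u G x)) ≤ zz u.length σ G x :=
  mul_le_mul_of_nonneg_left (single_le_sum (f := fun u => ip (PP (dXw u G x)) (PP (dXw u G x)))
    (fun _ _ => ip_self_nonneg _) (mem_words.2 rfl)) (by rw [pow_mul']; positivity)

lemma term_le_yw (hV : VStmt) {n : ℕ} (u : List Ix) (m : ℕ) (h : u.length + m ≤ n) (x : E3) :
    σ x ^ (2 * u.length) * WW m (dXw u G x - PP (dXw u G x)) ≤ (n + 1) * yw n σ G x := by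
  have h1 := sum_le_card_nsmul (range (m + 1)) (fun l => σ x ^ (2 * u.length) *
    ∑ w ∈ words l, wq (apW w (dXw u G x - PP (dXw u G x)))) (yw n σ G x) fun l hl => by
      have := KK.term_le_lev (n := n) (θ := 1) (σ := σ x) zero_le_one
        (φ := fun u m => ∑ w ∈ words m, wq (apW w (dXw u G x - PP (dXw u G x))))
        (fun _ _ => sum_nonneg fun _ _ => hV.wq_nonneg _) u l (by have := mem_range.1 hl; omega)
      rwa [one_pow, one_mul] at this
  rw [card_range, nsmul_eq_mul, ← mul_sum] at h1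
  have h2 : ((m + 1 : ℕ) : ℝ) ≤ n + 1 := by exact_mod_cast (by omega : m + 1 ≤ n + 1)
  exact h1.trans (mul_le_mul_of_nonneg_right h2 (yw_nonneg hV n x))

lemma le_sqrt_of {s W B : ℝ} {k : ℕ} (hW : 0 ≤ W) (h : s ^ (2 * k) * W ≤ B) :
    s ^ k * √W ≤ √B := by
  refine Real.le_sqrt_of_sq_le ?_
  rwa [mul_pow, Real.sq_sqrt hW, ← pow_mul, mul_comm k]

lemma continuous_zz (hσ : Continuous σ) (hG : Sm G) (j : ℕ) : Continuous (zz j σ G) :=
  (hσ.pow _).mul (continuous_finsetSum _ fun u _ => (sm_ip_clm (hG.dXw u) PP PP).cont)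

lemma continuous_yw (hV : VStmt) (hσ : Continuous σ) (hG : Sm G) (n : ℕ) :
    Continuous (yw n σ G) := by
  unfold yw lev
  refine continuous_finsetSum _ fun j _ => continuous_finsetSum _ fun m _ =>
    (continuous_const.mul (hσ.pow _)).mul (continuous_finsetSum _ fun u _ =>
      continuous_finsetSum _ fun w _ => hV.wq_cont.comp ((apW w).continuous.comp ?_))
  exact (hG.dXw u).cont.sub (PP.continuous.comp (hG.dXw u).cont)

lemma continuous_et {ω ωt σt : E3 → ℝ} (hω : Continuous ω) (hσ : Continuous σ)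
    (hωt : Continuous ωt) (hσt : Continuous σt) (hG : Sm G) (n : ℕ) (θ : ℝ) :
    Continuous (et n θ ω σ ωt σt G) := by
  unfold et
  refine (hωt.mul (KK.continuous_bb hσ hG hG)).add (hω.mul (continuous_finsetSum _ fun j _ =>
    continuous_finsetSum _ fun m _ => (continuous_const.mul
      ((continuous_const.mul (hσ.pow _)).mul hσt)).mul (continuous_finsetSum _ fun u _ => ?_)))
  exact (sm_RR (hG.dXw u) m).cont

/-- The pointwise inequality with the sizes of the statement. -/
lemma point_le (hV : VStmt) (K : ℕ → ℝ) : ∃ K0 : ℝ, ∀ (n : ℕ) (θ ε : ℝ), 0 < θ → θ ≤ 1 → 0 < ε →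
    ∃ C : ℝ, 0 < C ∧ ∀ (F : Fld) (lam : ℝ) (ω σ μ ωt σt γ : E3 → ℝ) (G : E3 → SV), 0 ≤ lam →
      F.Bd K σ μ → WtBd F K lam ω σ μ ωt σt γ → ∀ x,
      ∑ j ∈ range (n + 1), ∑ m ∈ range (n + 1 - j), θ ^ (j + m) *
          ∑ u ∈ words j, (jet F ω σ μ ωt σt γ G x).q j m u
        ≤ (θ ^ n * (K0 - 2 * n * lam) + ε) * (μ x * ω x * zz n σ G x)
          + C * ∑ j ∈ range n, μ x * ω x * zz j σ G x + C * (μ x * ω x * yw n σ G x) := by
  obtain ⟨K0, h0⟩ := Jet.sum_q_le hV K
  refine ⟨K0, fun n θ ε hθ hθ1 hε => ?_⟩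
  obtain ⟨C, hC, h0⟩ := h0 n
  obtain ⟨cs, Cs, hCs, hs, hs'⟩ := unif_const hV.split n
  set D := (Cs + 1) * (n + 1) with hD
  have hD1 : Cs + 1 ≤ D := le_mul_of_one_le_right (by positivity) (by
    linarith [(Nat.cast_nonneg n : (0 : ℝ) ≤ n)])
  have hD2 : (n + 1 : ℝ) ≤ D := le_mul_of_one_le_left (by positivity) (by linarith)
  refine ⟨ε + (C * D) ^ 2 / ε, by positivity, fun F lam ω σ μ ωt σt γ G hlam hB hW x => ?_⟩
  have hσ := (hW.hσ.pos x).le
  have hμω : 0 < μ x * ω x := mul_pos (hW.hμ.pos x) (hW.hω.pos x)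
  set S := ∑ j ∈ range n, zz j σ G x with hS
  set y := yw n σ G x with hy
  set z := zz n σ G x with hz
  have hS0 : 0 ≤ S := sum_nonneg fun _ _ => zz_nonneg _ _
  have hy0 : 0 ≤ y := yw_nonneg hV n x
  have hz0 : 0 ≤ z := zz_nonneg _ _
  have low : ∀ u : List Ix, u.length < n → zz u.length σ G x ≤ S := fun u hu =>
    single_le_sum (f := fun j => zz j σ G x) (fun _ _ => zz_nonneg _ _) (mem_range.2 hu)
  have rho : ∀ (u : List Ix) (m : ℕ), u.length + m ≤ n →
      σ x ^ (2 * u.length) * WW m (dXw u G x) ≤ D * (zz u.length σ G x + y) := by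
    intro u m hum
    have a1 := mul_le_mul_of_nonneg_left ((hs m).2 (dXw u G x))
      (by positivity : 0 ≤ σ x ^ (2 * u.length))
    have a2 := term_le_zz (σ := σ) (G := G) u x
    have a3 := term_le_yw (σ := σ) (G := G) hV u m hum x
    have a4 := zz_nonneg (σ := σ) (G := G) u.length x
    have a5 : cs m ≤ Cs + 1 := (hs' m (by omega)).trans (by linarith)
    calc _ ≤ _ := a1
      _ = cs m * (σ x ^ (2 * u.length) * ip (PP (dXw u G x)) (PP (dXw u G x))
          + σ x ^ (2 * u.length) * WW m (dXw u G x - PP (dXw u G x))) := by ring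
      _ ≤ cs m * (zz u.length σ G x + (n + 1) * y) :=
          mul_le_mul_of_nonneg_left (add_le_add a2 a3) (hs m).1.le
      _ ≤ (Cs + 1) * ((n + 1) * zz u.length σ G x + (n + 1) * y) := by
          gcongr
          exact le_mul_of_one_le_left a4 (by linarith [(Nat.cast_nonneg n : (0 : ℝ) ≤ n)])
      _ = _ := by rw [hD]; ring
  have hD0 : 0 ≤ D := by positivity
  have key := h0 θ (jet F ω σ μ ωt σt γ G x) lam (√(D * (S + y))) (√(D * (z + S + y))) hθ hθ1
    (jet_H hB hW x) hlam (Real.sqrt_nonneg _) (Real.sqrt_le_sqrt (by gcongr; linarith))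
    (fun u m hum hu => le_sqrt_of (hV.WW_nonneg _ _) ((rho u m hum).trans (by
      gcongr; exact low u hu)))
    (fun u m hum => le_sqrt_of (hV.WW_nonneg _ _) ((rho u m hum).trans (by
      gcongr
      rcases (show u.length ≤ n by omega).lt_or_eq with hu | hu
      · linarith [low u hu]
      · rw [hu]; linarith)))
    (fun u hu => le_sqrt_of (hV.wq_nonneg _) (by
      have a3 := term_le_yw (σ := σ) (G := G) (n := n) hV u 0 (by omega) x
      have e : WW 0 (dXw u G x - PP (dXw u G x)) = wq (dXw u G x - PP (dXw u G x)) := by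
        simp [WW, words]
      rw [e, hu] at a3
      refine a3.trans ?_
      gcongr
      linarith))
    (fun u hu => le_sqrt_of (ip_self_nonneg _) (by
      have a2 := term_le_zz (σ := σ) (G := G) u x
      rw [hu] at a2
      refine a2.trans ((le_mul_of_one_le_left hz0 (by linarith : 1 ≤ D)).trans ?_)
      gcongr
      linarith))
  have am : C * (√(D * (S + y)) * √(D * (z + S + y))) ≤
      ε * (z + S + y) + (C * D) ^ 2 / ε * (S + y) := by
    rw [Real.sqrt_mul hD0, Real.sqrt_mul hD0]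
    have e1 := Real.mul_self_sqrt hD0
    have e2 := Real.sq_sqrt (by positivity : 0 ≤ S + y)
    have e3 := Real.sq_sqrt (by positivity : 0 ≤ z + S + y)
    set p := √(S + y)
    set q := √(z + S + y)
    have e4 : C * (√D * p * (√D * q)) = C * D * p * q := by
      linear_combination (C * p * q) * e1
    rw [e4, ← e2, ← e3]
    have e5 : ε * q ^ 2 + (C * D) ^ 2 / ε * p ^ 2 - C * D * p * q =
        ((ε * q - C * D * p / 2) ^ 2 + 3 / 4 * (C * D * p) ^ 2) / ε := by
      field_simp; ring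
    have e6 : 0 ≤ ((ε * q - C * D * p / 2) ^ 2 + 3 / 4 * (C * D * p) ^ 2) / ε := by positivity
    linarith
  refine key.trans ?_
  change μ x * ω x * (θ ^ n * (K0 - 2 * n * lam) * z + _) ≤ _
  rw [← mul_sum]
  nlinarith [mul_le_mul_of_nonneg_left am hμω.le]

end Trn

open Trn in
theorem trStmt_of (hV : VStmt) : TrStmt := by
  intro K
  obtain ⟨K0, h0⟩ := point_le hV K
  refine ⟨K0, fun n θ ε hθ hθ1 hε => ?_⟩
  obtain ⟨C, hC, h0⟩ := h0 n θ ε hθ hθ1 hε
  refine ⟨C, hC, fun F lam ω σ μ ωt σt γ G hlam hR hB hW hωt hσt hγ hG hP => ?_⟩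
  have hω := hW.hω.sm
  have hσ := hW.hσ.sm
  have hμω : Continuous fun x => μ x * ω x := hW.hμ.sm.cont.mul hω.cont
  have c1 := continuous_et hω.cont hσ.cont hωt hσt hG n θ
  have c2 : Continuous fun x => γ x * bb n θ σ G G x := hγ.mul (KK.continuous_bb hσ.cont hG hG)
  have c3 : Continuous fun x => ω x * bb n θ σ (F.tr G) G x :=
    hω.cont.mul (KK.continuous_bb hσ.cont (hR.sm_tr hG) hG)
  have c4 : ∀ j m i u, Continuous (dX i (flux F ω σ G j m i u)) := fun j m i u =>
    ((sm_flux hR hω hσ hG j m i u).dX i).cont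
  have c5 : ∀ j m, Continuous fun x => θ ^ (j + m) *
      ∑ u ∈ words j, ∑ i, dX i (flux F ω σ G j m i u) x := fun j m =>
    continuous_const.mul (continuous_finsetSum _ fun u _ => continuous_finsetSum _ fun i _ =>
      c4 j m i u)
  have c6 : Continuous fun x => ∑ j ∈ range (n + 1), ∑ m ∈ range (n + 1 - j), θ ^ (j + m) *
      ∑ u ∈ words j, ∑ i, dX i (flux F ω σ G j m i u) x :=
    continuous_finsetSum _ fun j _ => continuous_finsetSum _ fun m _ => c5 j m
  have cz : ∀ j, Continuous fun x => μ x * ω x * zz j σ G x := fun j =>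
    hμω.mul (continuous_zz hσ.cont hG j)
  have cy : Continuous fun x => μ x * ω x * yw n σ G x := hμω.mul (continuous_yw hV hσ.cont hG n)
  have cs : Continuous fun x => ∑ j ∈ range n, μ x * ω x * zz j σ G x :=
    continuous_finsetSum _ fun j _ => cz j
  have hdiv : tint (fun x => ∑ j ∈ range (n + 1), ∑ m ∈ range (n + 1 - j), θ ^ (j + m) *
      ∑ u ∈ words j, ∑ i, dX i (flux F ω σ G j m i u) x) = 0 := by
    rw [tint_sum _ fun j _ => continuous_finsetSum _ fun m _ => c5 j m]
    refine sum_eq_zero fun j _ => ?_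
    rw [tint_sum _ fun m _ => c5 j m]
    refine sum_eq_zero fun m _ => ?_
    rw [tint_const_mul, tint_sum _ fun u _ => continuous_finsetSum _ fun i _ => c4 j m i u]
    refine mul_eq_zero_of_right _ (sum_eq_zero fun u _ => ?_)
    rw [tint_sum _ fun i _ => c4 j m i u]
    exact sum_eq_zero fun i _ => tint_dX (sm_flux hR hω hσ hG j m i u)
      (per_flux hR hW.hω.per hW.hσ.per hP j m i u) i
  have main := tint_mono (((c1.add c2).sub (continuous_const.mul c3)).add c6)
    (((continuous_const.mul (cz n)).add (continuous_const.mul cs)).add (continuous_const.mul cy))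
    fun x => (jet_sum (μ := μ) (ωt := ωt) (σt := σt) (γ := γ) hR hω hσ hG n θ x).trans_le
      (h0 F lam ω σ μ ωt σt γ G hlam hB hW x)
  erw [tint_add ((c1.add c2).sub (continuous_const.mul c3)) c6,
    tint_sub (c1.add c2) (continuous_const.mul c3), tint_add c1 c2, tint_const_mul, hdiv,
    tint_add ((continuous_const.mul (cz n)).add (continuous_const.mul cs))
      (continuous_const.mul cy),
    tint_add (continuous_const.mul (cz n)) (continuous_const.mul cs), tint_const_mul,
    tint_const_mul, tint_const_mul, tint_sum _ fun j _ => cz j] at main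
  unfold En
  linarith

end Pool.Agent.BoltzM
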