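import Pool.Agent.BoltzM.En.Defs
import Pool.Agent.BoltzM.Herm.Macro

/-!
Module M4a: the velocity estimates `VStmt`.
-/

set_option autoImplicit false

open MeasureTheory Pool.Agent.BoltzM.BoltzC Finset Filter Topology
open Pool.Agent.MP_187b32_an.PM (NF QF)

noncomputable section

namespace Pool.Agent.BoltzM

variable [Dim]

namespace Vel

/-! ### The weighted norm -/

lemma int_wt (p : ℕ) (f g : SV) : Integrable fun v => (1 + ‖v‖) ^ p * (f v * g v) := by
  obtain ⟨C, -, hC⟩ := weighted_le_nA p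
  refine Integrable.mono' (g.integrable.norm.const_mul (C * √(nA (p + dd) f))) ?_
    (Eventually.of_forall fun v => ?_)
  · exact (((continuous_const.add continuous_norm).pow p).mul
      (f.continuous.mul g.continuous)).aestronglyMeasurable
  · rw [Real.norm_eq_abs, Real.norm_eq_abs, abs_mul, abs_mul, abs_of_nonneg (by positivity),
      ← mul_assoc]
    exact mul_le_mul_of_nonneg_right (hC f v).1 (abs_nonneg _)

lemma int_sq (p : ℕ) (f : SV) : Integrable fun v => (1 + ‖v‖) ^ p * f v ^ 2 := by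
  simpa only [sq] using int_wt p f f

/-- The bilinear form of `wq`. -/
def wB : SV →ₗ[ℝ] SV →ₗ[ℝ] ℝ :=
  LinearMap.mk₂ ℝ (fun f g => ∫ v, (1 + ‖v‖) ^ 4 * (f v * g v))
    (fun f₁ f₂ g => by
      rw [← integral_add (int_wt 4 f₁ g) (int_wt 4 f₂ g)]
      simp [add_mul, mul_add])
    (fun c f g => by
      rw [smul_eq_mul, ← integral_const_mul]
      simp [mul_assoc, mul_left_comm])
    (fun f g₁ g₂ => by
      rw [← integral_add (int_wt 4 f g₁) (int_wt 4 f g₂)]
      simp [mul_add])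
    (fun c f g => by
      rw [smul_eq_mul, ← integral_const_mul]
      simp [mul_left_comm])

lemma wB_def (f g : SV) : wB f g = ∫ v, (1 + ‖v‖) ^ 4 * (f v * g v) := rfl

lemma wq_eq (f : SV) : wq f = wB f f := by simp [wq, wB_def, sq]

lemma wB_comm (f g : SV) : wB f g = wB g f := by simp [wB_def, mul_comm (f _)]

lemma wq_nonneg (f : SV) : 0 ≤ wq f := integral_nonneg fun _ => by positivity

lemma wq_zero : wq 0 = 0 := by simp [wq]

lemma abs_wB_le (f g : SV) : |wB f g| ≤ √(wq f) * √(wq g) := by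
  rw [← Real.sqrt_mul (wq_nonneg f), wq_eq, wq_eq]
  exact Real.abs_le_sqrt (LinearMap.BilinForm.apply_sq_le_of_symm wB
    (fun x => wq_eq x ▸ wq_nonneg x) ⟨wB_comm⟩ f g)

lemma wq_add_le (f g : SV) : wq (f + g) ≤ 2 * wq f + 2 * wq g := by
  have := wq_nonneg (f - g)
  simp only [wq_eq, map_add, map_sub, LinearMap.add_apply, LinearMap.sub_apply] at this ⊢
  linarith

lemma ip_le_of_abs {f g : SV} (h : ∀ v, |g v| ≤ (1 + ‖v‖) ^ 2 * |f v|) : ip g g ≤ wq f := by
  rw [ip_self_eq]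
  refine integral_mono (by simpa using int_sq 0 g) (int_sq 4 f) fun v => ?_
  have := pow_le_pow_left₀ (abs_nonneg _) (h v) 2
  rw [mul_pow, sq_abs, sq_abs, ← pow_mul] at this
  exact this

lemma abs_coord_le (v : E) (i : Ix) : |v i| ≤ 1 + ‖v‖ := by
  have := PiLp.norm_apply_le v i
  rw [Real.norm_eq_abs] at this
  linarith

lemma ip_le_wq (f : SV) : ip f f ≤ wq f :=
  ip_le_of_abs fun v => le_mul_of_one_le_left (abs_nonneg _)
    (one_le_pow₀ (le_add_of_nonneg_right (norm_nonneg v)))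

lemma ip_mulV_le (i : Ix) (f : SV) : ip (mulV i f) (mulV i f) ≤ wq f :=
  ip_le_of_abs fun v => by
    rw [mulV_apply, abs_mul]
    have := abs_coord_le v i
    have := norm_nonneg v
    gcongr
    nlinarith

lemma ip_mulV2_le (i j : Ix) (f : SV) :
    ip (mulV i (mulV j f)) (mulV i (mulV j f)) ≤ wq f :=
  ip_le_of_abs fun v => by
    rw [mulV_apply, mulV_apply, abs_mul, abs_mul, ← mul_assoc, sq]
    gcongr <;> exact abs_coord_le v _

lemma wq_le_ip (f : SV) :
    wq f ≤ 8 * (ip f f + ∑ i, ∑ j, ip (mulV i (mulV j f)) (mulV i (mulV j f))) := by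
  have i0 : ∀ g : SV, Integrable fun v => g v ^ 2 := fun g => by simpa using int_sq 0 g
  have i1 : ∀ i, Integrable fun v => ∑ j, mulV i (mulV j f) v ^ 2 := fun i =>
    integrable_finsetSum _ fun j _ => i0 _
  have i2 : Integrable fun v => ∑ i, ∑ j, mulV i (mulV j f) v ^ 2 :=
    integrable_finsetSum _ fun i _ => i1 i
  simp only [ip_self_eq]
  simp only [← integral_finsetSum _ fun j _ => i0 _]
  rw [← integral_finsetSum _ fun i _ => i1 i, ← integral_add (i0 f) i2, ← integral_const_mul]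
  refine integral_mono (int_sq 4 f) (((i0 f).add i2).const_mul 8) fun v => ?_
  have h : ∑ i, ∑ j, mulV i (mulV j f) v ^ 2 = ‖v‖ ^ 4 * f v ^ 2 := by
    rw [show ‖v‖ ^ 4 = ‖v‖ ^ 2 * ‖v‖ ^ 2 by ring, EuclideanSpace.real_norm_sq_eq]
    rw [Finset.sum_mul_sum]
    simp only [mulV_apply, Finset.sum_mul]
    exact Finset.sum_congr rfl fun i _ => Finset.sum_congr rfl fun j _ => by ring
  simp only [h]
  have h1 : (1 + ‖v‖) ^ 4 ≤ 8 * (1 + ‖v‖ ^ 4) := by
    nlinarith [sq_nonneg (‖v‖ - 1), sq_nonneg (‖v‖ ^ 2 - 1), sq_nonneg (‖v‖ ^ 2 - ‖v‖),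
      mul_nonneg (norm_nonneg v) (sq_nonneg (‖v‖ - 1))]
  nlinarith [mul_le_mul_of_nonneg_right h1 (sq_nonneg (f v))]

lemma wq_le_nA : ∃ C : ℝ, 0 < C ∧ ∀ f, wq f ≤ C * nA 2 f := by
  have h : OrdA 2 (ContinuousLinearMap.id ℝ SV) := OrdA.id.mono (by norm_num)
  choose C hC hb using fun p : Ix × Ix => ((ordA_mulV p.1).comp (ordA_mulV p.2)) 0
  refine ⟨8 * (1 + ∑ p, C p), by
    have := Finset.sum_nonneg (s := univ) fun p _ => (hC p).le
    positivity, fun f => (wq_le_ip f).trans ?_⟩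
  rw [mul_assoc, add_mul, one_mul, Finset.sum_mul, ← Finset.sum_product', univ_product_univ]
  gcongr with p
  · rw [← nA_zero]; exact nA_mono (by norm_num) f
  · rw [← nA_zero]; exact hb p f

lemma wq_cont : Continuous wq := by
  obtain ⟨C, hC, h⟩ := wq_le_nA
  refine continuous_iff_continuousAt.2 fun g => ?_
  rw [ContinuousAt, tendsto_iff_norm_sub_tendsto_zero]
  have hc : Continuous fun f => √(C * nA 2 (f - g)) * √(C * nA 2 (f + g)) :=
    ((continuous_const.mul ((continuous_nA 2).comp (continuous_id.sub continuous_const))).sqrt).mul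
      ((continuous_const.mul ((continuous_nA 2).comp (continuous_id.add continuous_const))).sqrt)
  have ht := hc.tendsto g
  simp only [sub_self, nA_zero_fun, mul_zero, Real.sqrt_zero, zero_mul] at ht
  refine squeeze_zero (fun _ => norm_nonneg _) (fun f => ?_) ht
  have e : wq f - wq g = wB (f - g) (f + g) := by
    simp only [wq_eq, map_add, map_sub, LinearMap.sub_apply, wB_comm g f]
    ring
  rw [e, Real.norm_eq_abs]
  refine (abs_wB_le _ _).trans ?_
  gcongr <;> exact h _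

lemma wq_le (ε : ℝ) (hε : 0 < ε) :
    ∃ C : ℝ, 0 < C ∧ ∀ f, wq f ≤ ε * ip (Jw 4 f) f + C * ip f f := by
  refine ⟨4 / ε, by positivity, fun f => ?_⟩
  have i0 : Integrable fun v => f v ^ 2 := by simpa using int_sq 0 f
  rw [ip_self_eq, ip_def, ← integral_const_mul, ← integral_const_mul,
    ← integral_add ((integrable_mul _ _).const_mul _) (i0.const_mul _)]
  refine integral_mono (int_sq 4 f) (((integrable_mul _ _).const_mul _).add (i0.const_mul _))
    fun v => ?_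
  have h1 : (1 + ‖v‖) ^ 2 ≤ 2 * (1 + ‖v‖ ^ 2) := by nlinarith [sq_nonneg (1 - ‖v‖)]
  have h2 : ((1 + ‖v‖) ^ 2) ^ 2 ≤ (2 * (1 + ‖v‖ ^ 2)) ^ 2 := by gcongr
  have e : (1 + ‖v‖ ^ 2) ^ (4 : ℝ) = (1 + ‖v‖ ^ 2) ^ 4 := by
    rw [← Real.rpow_natCast]; norm_num
  simp only [Jw_apply, e]
  set y := (1 + ‖v‖ ^ 2) ^ 2 with hy
  have h3 : ε * y ^ 2 + 4 / ε - 4 * y = (ε * y - 2) ^ 2 / ε := by field_simp; ring
  have h4 : 0 ≤ (ε * y - 2) ^ 2 / ε := by positivity
  have h5 : (1 + ‖v‖) ^ 4 ≤ ε * y ^ 2 + 4 / ε := by nlinarith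
  have h6 := mul_le_mul_of_nonneg_right h5 (sq_nonneg (f v))
  calc _ ≤ _ := h6
    _ = _ := by rw [hy]; ring

/-! ### Words of length below `n` -/

/-- Sum of the weighted norms of the words of length less than `n`. -/
def W (n : ℕ) (f : SV) : ℝ := ∑ l ∈ range n, ∑ w ∈ words l, wq (apW w f)

lemma WW_eq (m : ℕ) (f : SV) : WW m f = W (m + 1) f := rfl

lemma W_nonneg (n : ℕ) (f : SV) : 0 ≤ W n f :=
  Finset.sum_nonneg fun _ _ => Finset.sum_nonneg fun _ _ => wq_nonneg _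

lemma W_mono {n k : ℕ} (h : n ≤ k) (f : SV) : W n f ≤ W k f :=
  Finset.sum_le_sum_of_subset_of_nonneg (Finset.range_mono h) fun _ _ _ =>
    Finset.sum_nonneg fun _ _ => wq_nonneg _

lemma sum_le_W (m : ℕ) (f : SV) : ∑ w ∈ words m, wq (apW w f) ≤ W (m + 1) f :=
  Finset.single_le_sum (f := fun l => ∑ w ∈ words l, wq (apW w f))
    (fun _ _ => Finset.sum_nonneg fun _ _ => wq_nonneg _) (Finset.self_mem_range_succ m)

lemma wq_apW_le (w : List Ix) (f : SV) : wq (apW w f) ≤ W (w.length + 1) f :=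
  (Finset.single_le_sum (f := fun w => wq (apW w f)) (fun _ _ => wq_nonneg _)
    (mem_words.2 rfl)).trans (sum_le_W _ f)

lemma W_ap (n : ℕ) (k : Ix) (f : SV) : W n (ap k f) ≤ W (n + 1) f := by
  rw [W, W, Finset.sum_range_succ']
  refine le_add_of_le_of_nonneg (Finset.sum_le_sum fun l _ => ?_)
    (Finset.sum_nonneg fun _ _ => wq_nonneg _)
  rw [sum_words_succ]
  simp only [apW_ap]
  exact Finset.single_le_sum (f := fun j => ∑ w ∈ words l, wq (ap j (apW w f)))
    (fun _ _ => Finset.sum_nonneg fun _ _ => wq_nonneg _) (Finset.mem_univ k)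

/-- `A` is bounded in `L²` by the words of length less than `n`. -/
def Bd (n : ℕ) (A : SV → SV) : Prop := ∃ C : ℝ, 0 < C ∧ ∀ f, ip (A f) (A f) ≤ C * W n f

lemma Bd.zero (n : ℕ) : Bd n fun _ => 0 :=
  ⟨1, one_pos, fun f => by simpa using W_nonneg n f⟩

lemma Bd.mono {n k : ℕ} {A : SV → SV} (hA : Bd n A) (h : n ≤ k) : Bd k A := by
  obtain ⟨C, hC, hA⟩ := hA
  exact ⟨C, hC, fun f => (hA f).trans (mul_le_mul_of_nonneg_left (W_mono h f) hC.le)⟩

lemma Bd.add {n : ℕ} {A B : SV → SV} (hA : Bd n A) (hB : Bd n B) : Bd n fun f => A f + B f := by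
  obtain ⟨C, hC, hA⟩ := hA
  obtain ⟨D, hD, hB⟩ := hB
  exact ⟨2 * C + 2 * D, by positivity, fun f => by
    linarith [ip_add_self_le (A f) (B f), hA f, hB f]⟩

lemma Bd.sub {n : ℕ} {A B : SV → SV} (hA : Bd n A) (hB : Bd n B) : Bd n fun f => A f - B f := by
  obtain ⟨C, hC, hA⟩ := hA
  obtain ⟨D, hD, hB⟩ := hB
  exact ⟨2 * C + 2 * D, by positivity, fun f => by
    linarith [ip_sub_self_le (A f) (B f), hA f, hB f]⟩

lemma Bd.ite {n : ℕ} {A : SV → SV} (hA : Bd n A) (p : Prop) [Decidable p] :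
    Bd n fun f => (if p then (1 : ℝ) else 0) • A f := by
  split_ifs
  · simpa using hA
  · simpa using Bd.zero n

lemma Bd.ap {n : ℕ} {A : SV → SV} (hA : Bd n A) (k : Ix) : Bd (n + 1) fun f => A (ap k f) := by
  obtain ⟨C, hC, hA⟩ := hA
  exact ⟨C, hC, fun f => (hA _).trans (mul_le_mul_of_nonneg_left (W_ap n k f) hC.le)⟩

lemma b0 (w : List Ix) : Bd (w.length + 1) fun f => apW w f :=
  ⟨1, one_pos, fun f => by rw [one_mul]; exact (ip_le_wq _).trans (wq_apW_le w f)⟩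

lemma b1 (i : Ix) (w : List Ix) : Bd (w.length + 1) fun f => mulV i (apW w f) :=
  ⟨1, one_pos, fun f => by rw [one_mul]; exact (ip_mulV_le _ _).trans (wq_apW_le w f)⟩

lemma b2 (i j : Ix) (w : List Ix) :
    Bd (w.length + 1) fun f => mulV i (mulV j (apW w f)) :=
  ⟨1, one_pos, fun f => by rw [one_mul]; exact (ip_mulV2_le _ _ _).trans (wq_apW_le w f)⟩

lemma c1 (i : Ix) (w : List Ix) :
    Bd w.length fun f => apW w (mulV i f) - mulV i (apW w f) := by
  induction w with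
  | nil => simpa using Bd.zero 0
  | cons k w ih =>
    have := (ih.ap k).sub ((b0 w).ite (k = i))
    rw [List.length_cons]
    convert this using 2 with f
    rw [apW_cons, apW_cons, ← apW_ap, ← apW_ap, ap_mulV, map_sub, map_smul]
    abel

lemma d1 (i : Ix) (w : List Ix) : Bd (w.length + 1) fun f => apW w (mulV i f) := by
  simpa using ((c1 i w).mono (Nat.le_succ _)).add (b1 i w)

lemma c2 (i j : Ix) (w : List Ix) :
    Bd w.length fun f => apW w (mulV i (mulV j f)) - mulV i (mulV j (apW w f)) := by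
  induction w with
  | nil => simpa using Bd.zero 0
  | cons k w ih =>
    have := ((ih.ap k).sub ((d1 i w).ite (k = j))).sub ((d1 j w).ite (k = i))
    rw [List.length_cons]
    convert this using 2 with f
    rw [apW_cons, apW_cons, ← apW_ap, ← apW_ap, ap_mulV, ap_mulV]
    simp only [map_sub, map_smul]
    abel

lemma d2 (i j : Ix) (w : List Ix) :
    Bd (w.length + 1) fun f => apW w (mulV i (mulV j f)) := by
  simpa using ((c2 i j w).mono (Nat.le_succ _)).add (b2 i j w)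

/-! ### Bilinear bounds -/

lemma unif {ι : Type} [Fintype ι] {P : ι → ℝ → Prop}
    (hm : ∀ i C D, C ≤ D → P i C → P i D) (h : ∀ i, ∃ C : ℝ, 0 < C ∧ P i C) :
    ∃ C : ℝ, 0 < C ∧ ∀ i, P i C := by
  choose C hC h using h
  have h0 := Finset.sum_nonneg (s := univ) fun i _ => (hC i).le
  refine ⟨1 + ∑ i, C i, by positivity, fun i => hm i _ _ ?_ (h i)⟩
  have := Finset.single_le_sum (f := C) (fun i _ => (hC i).le) (Finset.mem_univ i)
  linarith

/-- The pairing of a family of bounded operators with the words of length `m`. -/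
lemma pair {n m : ℕ} {A : List Ix → SV → SV} (h : ∀ w, w.length = m → Bd n (A w)) :
    ∃ C : ℝ, 0 < C ∧ ∀ f g,
      |∑ w ∈ words m, ip (A w f) (apW w g)| ≤ C * √(W n f) * √(W (m + 1) g) := by
  choose! C hC hb using h
  have h0 : 0 ≤ ∑ w ∈ words m, √(C w) := Finset.sum_nonneg fun _ _ => Real.sqrt_nonneg _
  refine ⟨1 + ∑ w ∈ words m, √(C w), by positivity, fun f g => ?_⟩
  calc _ ≤ ∑ w ∈ words m, √(C w) * √(W n f) * √(W (m + 1) g) := by
        refine (Finset.abs_sum_le_sum_abs _ _).trans (Finset.sum_le_sum fun w hw => ?_)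
        have hl := mem_words.1 hw
        refine (abs_ip_le _ _).trans ?_
        rw [← Real.sqrt_mul (hC w hl).le]
        gcongr
        · exact hb w hl f
        · exact (ip_le_wq _).trans (hl ▸ wq_apW_le w g)
    _ = (∑ w ∈ words m, √(C w)) * √(W n f) * √(W (m + 1) g) := by
        rw [Finset.sum_mul, Finset.sum_mul]
    _ ≤ _ := by gcongr; linarith

lemma sum_pair {m : ℕ} {B : SV → SV} (hB : ∀ p, ip (B p) (B p) ≤ wq p) (f g : SV) :
    |∑ w ∈ words m, ip (B (apW w f)) (apW w g)| ≤ √(WW m f) * √(WW m g) := by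
  calc _ ≤ ∑ w ∈ words m, √(wq (apW w f)) * √(wq (apW w g)) := by
        refine (Finset.abs_sum_le_sum_abs _ _).trans (Finset.sum_le_sum fun w _ => ?_)
        refine (abs_ip_le _ _).trans ?_
        gcongr
        · exact hB _
        · exact ip_le_wq _
    _ ≤ √(∑ w ∈ words m, wq (apW w f)) * √(∑ w ∈ words m, wq (apW w g)) :=
        Real.sum_sqrt_mul_sqrt_le _ (fun _ => wq_nonneg _) (fun _ => wq_nonneg _)
    _ ≤ _ := by gcongr <;> exact sum_le_W _ _

lemma comm (m : ℕ) : ∃ C : ℝ, 0 < C ∧ ∀ i f g,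
    |ip (mulV i f) (RR (m + 1) g) - NV (m + 1) i f g| ≤ C * √(WW m f) * √(WW (m + 1) g) := by
  refine unif (fun i C D hCD h f g => (h f g).trans (by gcongr)) fun i => ?_
  obtain ⟨C, hC, h⟩ := pair (n := m + 1) (m := m + 1)
    (A := fun w f => apW w (mulV i f) - mulV i (apW w f)) fun w hw => hw ▸ c1 i w
  refine ⟨C, hC, fun f g => ?_⟩
  have := h f g
  simp only [map_sub, LinearMap.sub_apply, Finset.sum_sub_distrib] at this
  rw [ip_RR]
  exact this

lemma mv (m : ℕ) : ∃ C : ℝ, 0 < C ∧ ∀ i f g,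
    |ip (mulV i f) (RR m g)| ≤ C * √(WW m f) * √(WW m g) := by
  refine unif (fun i C D hCD h f g => (h f g).trans (by gcongr)) fun i => ?_
  obtain ⟨C, hC, h⟩ := pair (n := m + 1) (m := m)
    (A := fun w f => apW w (mulV i f)) fun w hw => hw ▸ d1 i w
  exact ⟨C, hC, fun f g => by rw [ip_RR]; exact h f g⟩

lemma low (m : ℕ) : ∃ C : ℝ, 0 < C ∧ ∀ i j l f g,
    |ip (ap l f) (RR m g)| ≤ C * √(WW (m + 1) f) * √(WW m g) ∧
    |ip (mulV i (ap l f)) (RR m g)| ≤ C * √(WW (m + 1) f) * √(WW m g) ∧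
    |ip (mulV i (mulV j (ap l f))) (RR m g)| ≤ C * √(WW (m + 1) f) * √(WW m g) := by
  suffices H : ∃ C : ℝ, 0 < C ∧ ∀ p : Ix × Ix × Ix, ∀ f g,
      |ip (ap p.2.2 f) (RR m g)| ≤ C * √(WW (m + 1) f) * √(WW m g) ∧
      |ip (mulV p.1 (ap p.2.2 f)) (RR m g)| ≤ C * √(WW (m + 1) f) * √(WW m g) ∧
      |ip (mulV p.1 (mulV p.2.1 (ap p.2.2 f))) (RR m g)| ≤ C * √(WW (m + 1) f) * √(WW m g) by
    obtain ⟨C, hC, h⟩ := H
    exact ⟨C, hC, fun i j l => h (i, j, l)⟩
  refine unif (fun i C D hCD h f g => ⟨(h f g).1.trans (by gcongr), (h f g).2.1.trans (by gcongr),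
    (h f g).2.2.trans (by gcongr)⟩) fun ⟨i, j, l⟩ => ?_
  obtain ⟨C₀, hC₀, h₀⟩ := pair (n := m + 1 + 1) (m := m)
    (A := fun w f => apW w (ap l f)) fun w hw => hw ▸ (b0 w).ap l
  obtain ⟨C₁, hC₁, h₁⟩ := pair (n := m + 1 + 1) (m := m)
    (A := fun w f => apW w (mulV i (ap l f))) fun w hw => hw ▸ (d1 i w).ap l
  obtain ⟨C₂, hC₂, h₂⟩ := pair (n := m + 1 + 1) (m := m)
    (A := fun w f => apW w (mulV i (mulV j (ap l f)))) fun w hw => hw ▸ (d2 i j w).ap l
  refine ⟨C₀ + C₁ + C₂, by positivity, fun f g => ?_⟩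
  simp only [ip_RR, WW_eq]
  refine ⟨(h₀ f g).trans ?_, (h₁ f g).trans ?_, (h₂ f g).trans ?_⟩ <;> gcongr <;> linarith

/-! ### The top order terms -/

lemma abs_pair {p a b : SV} (ha : ip a a ≤ wq p) (hb : ip b b ≤ wq p) : |ip a b| ≤ wq p := by
  refine (abs_ip_le _ _).trans ?_
  conv_rhs => rw [← Real.mul_self_sqrt (wq_nonneg p)]
  gcongr

lemma ap_eq (l : Ix) (p : SV) : ap l p = (1 / 2 : ℝ) • mulV l p - dV l p := rfl

lemma t0 (l : Ix) (p : SV) : |ip (ap l p) p| ≤ 2 * wq p := by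
  have h1 := ip_dV l p p
  rw [ip_comm p] at h1
  have h2 := abs_le.1 (abs_pair (ip_mulV_le l p) (ip_le_wq p))
  have := wq_nonneg p
  simp only [ap_eq, map_sub, map_smul, LinearMap.sub_apply, LinearMap.smul_apply, smul_eq_mul]
  rw [abs_le]
  constructor <;> linarith [h2.1, h2.2]

lemma t1 (i l : Ix) (p : SV) : |ip (mulV i (ap l p)) p| ≤ 2 * wq p := by
  have h1 := ip_dV l p (mulV i p)
  rw [dV_mulV, map_add, map_smul, ← ip_mulV, ip_comm p (mulV i _)] at h1
  have h2 := abs_le.1 (abs_pair (ip_mulV2_le i l p) (ip_le_wq p))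
  have h3 := ip_le_wq p
  have h4 := ip_self_nonneg p
  simp only [ap_eq, map_sub, map_smul, LinearMap.sub_apply, LinearMap.smul_apply, smul_eq_mul]
    at h1 ⊢
  rw [abs_le]
  split_ifs at h1 <;> constructor <;> linarith [h2.1, h2.2]

lemma t2 (i j l : Ix) (p : SV) : |ip (mulV i (mulV j (ap l p))) p| ≤ 2 * wq p := by
  have h1 := ip_dV l p (mulV j (mulV i p))
  rw [dV_mulV, dV_mulV, ← ip_mulV, ← ip_mulV, map_add (mulV j), map_smul, map_add, map_add,
    map_smul, map_smul, mulV_comm j i, ip_comm p (mulV i (mulV j _))] at h1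
  have h2 := abs_le.1 (abs_pair (ip_mulV2_le j l p) (ip_mulV_le i p))
  rw [← ip_mulV] at h2
  have h3 := abs_le.1 (abs_pair (ip_le_wq p) (ip_mulV_le i p))
  have h4 := abs_le.1 (abs_pair (ip_le_wq p) (ip_mulV_le j p))
  have := wq_nonneg p
  simp only [ap_eq, map_sub, map_smul, LinearMap.sub_apply, LinearMap.smul_apply, smul_eq_mul]
    at h1 ⊢
  rw [abs_le]
  split_ifs at h1 <;> constructor <;> linarith [h2.1, h2.2, h3.1, h3.2, h4.1, h4.2]

lemma top_of {m : ℕ} {T : SV → SV} (hT : ∀ p, |ip (T p) p| ≤ 2 * wq p)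
    (hc : ∀ w : List Ix, Bd (w.length + 1) fun f => apW w (T f) - T (apW w f)) :
    ∃ C : ℝ, 0 < C ∧ ∀ f, |ip (T f) (RR m f)| ≤ C * WW m f := by
  obtain ⟨C, hC, h⟩ := pair (n := m + 1) (m := m)
    (A := fun w f => apW w (T f) - T (apW w f)) fun w hw => hw ▸ hc w
  refine ⟨C + 2, by positivity, fun f => ?_⟩
  have h1 := h f f
  rw [mul_assoc, Real.mul_self_sqrt (W_nonneg _ _)] at h1
  simp only [map_sub, LinearMap.sub_apply, Finset.sum_sub_distrib] at h1
  have h2 : |∑ w ∈ words m, ip (T (apW w f)) (apW w f)| ≤ 2 * W (m + 1) f := by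
    refine (Finset.abs_sum_le_sum_abs _ _).trans ((Finset.sum_le_sum fun w _ => hT _).trans ?_)
    rw [← Finset.mul_sum]
    linarith [sum_le_W m f]
  rw [ip_RR, WW_eq, abs_le]
  rw [abs_le] at h1 h2
  constructor <;> linarith [h1.1, h1.2, h2.1, h2.2]

lemma top (m : ℕ) : ∃ C : ℝ, 0 < C ∧ ∀ i j l f, |ip (ap l f) (RR m f)| ≤ C * WW m f ∧
    |ip (mulV i (ap l f)) (RR m f)| ≤ C * WW m f ∧
    |ip (mulV i (mulV j (ap l f))) (RR m f)| ≤ C * WW m f := by
  suffices H : ∃ C : ℝ, 0 < C ∧ ∀ p : Ix × Ix × Ix, ∀ f,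
      |ip (ap p.2.2 f) (RR m f)| ≤ C * WW m f ∧
      |ip (mulV p.1 (ap p.2.2 f)) (RR m f)| ≤ C * WW m f ∧
      |ip (mulV p.1 (mulV p.2.1 (ap p.2.2 f))) (RR m f)| ≤ C * WW m f by
    obtain ⟨C, hC, h⟩ := H
    exact ⟨C, hC, fun i j l => h (i, j, l)⟩
  have hW : ∀ f, 0 ≤ WW m f := fun f => W_nonneg _ f
  refine unif (fun i C D hCD h f => ⟨(h f).1.trans (by gcongr; exact hW f),
    (h f).2.1.trans (by gcongr; exact hW f), (h f).2.2.trans (by gcongr; exact hW f)⟩)
    fun ⟨i, j, l⟩ => ?_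
  obtain ⟨C₀, hC₀, h₀⟩ := top_of (m := m) (T := fun f => ap l f) (t0 l) fun w => by
    simpa [apW_ap] using Bd.zero _
  obtain ⟨C₁, hC₁, h₁⟩ := top_of (m := m) (T := fun f => mulV i (ap l f)) (t1 i l) fun w => by
    simpa only [apW_ap] using (c1 i w).ap l
  obtain ⟨C₂, hC₂, h₂⟩ := top_of (m := m) (T := fun f => mulV i (mulV j (ap l f))) (t2 i j l)
    fun w => by simpa only [apW_ap] using (c2 i j w).ap l
  refine ⟨C₀ + C₁ + C₂, by positivity, fun f => ?_⟩
  have := hW f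
  refine ⟨(h₀ f).trans ?_, (h₁ f).trans ?_, (h₂ f).trans ?_⟩ <;> gcongr <;> linarith

/-! ### The hydrodynamic part -/

lemma wq_PP_le (w : List Ix) :
    ∃ C : ℝ, 0 ≤ C ∧ ∀ f, wq (apW w (PP f)) ≤ C * ip (PP f) (PP f) := by
  obtain ⟨C, hC, h⟩ := wq_le_nA
  obtain ⟨D, hD, h'⟩ := nA_clm_PP_le (apW w) 2
  exact ⟨C * D, by positivity, fun f => (h _).trans (by rw [mul_assoc]; gcongr; exact h' f)⟩

lemma split (m : ℕ) : ∃ C : ℝ, 0 < C ∧ ∀ f,
    WW m f ≤ C * (ip (PP f) (PP f) + WW m (f - PP f)) := by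
  choose C hC h using wq_PP_le
  have h0 : 0 ≤ ∑ l ∈ range (m + 1), ∑ w ∈ words l, C w :=
    Finset.sum_nonneg fun _ _ => Finset.sum_nonneg fun _ _ => hC _
  refine ⟨2 + 2 * ∑ l ∈ range (m + 1), ∑ w ∈ words l, C w, by positivity, fun f => ?_⟩
  have h1 : WW m f ≤ 2 * (∑ l ∈ range (m + 1), ∑ w ∈ words l, C w) * ip (PP f) (PP f)
      + 2 * WW m (f - PP f) := by
    simp only [WW, Finset.mul_sum, Finset.sum_mul, ← Finset.sum_add_distrib]
    refine Finset.sum_le_sum fun l _ => Finset.sum_le_sum fun w _ => ?_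
    have e : apW w f = apW w (PP f) + apW w (f - PP f) := by rw [← map_add]; simp
    have := wq_add_le (apW w (PP f)) (apW w (f - PP f))
    rw [← e] at this
    linarith [h w f]
  have h2 := ip_self_nonneg (PP f)
  have h3 : 0 ≤ WW m (f - PP f) := W_nonneg _ _
  nlinarith [mul_nonneg h0 h3]

/-- Acoustic and entropy coordinates of the hydrodynamic part. -/
lemma coords : ∃ (a s : SV → ℝ) (b : SV → Ix → ℝ),
    (∀ f g, ip (PP f) (PP g) = a f * a g + ∑ q, b f q * b g q + s f * s g) ∧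
    ∀ i f g, ip (mulV i (PP f)) (PP g) = cq * (a f * b g i + a g * b f i) := by
  have hZ := ZM_pos
  have hd := dr_pos
  have hz := Real.sqrt_pos.2 hZ
  have hz2 := Real.sq_sqrt hZ.le
  have ht := Real.sqrt_pos.2 (show (0 : ℝ) < 2 * (dd + 2) by positivity)
  have ht2 := Real.sq_sqrt (show (0 : ℝ) ≤ 2 * (dd + 2) by positivity)
  have hc : 0 < cq := Real.sqrt_pos.2 (by positivity)
  have hc2 := cq_sq
  refine ⟨fun f => (ip (hb none) f + ip (hb (some none)) f / dd) / (cq * √ZM),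
    fun f => (2 * ip (hb none) f - ip (hb (some none)) f) / (√(2 * (dd + 2)) * √ZM),
    fun f j => ip (hb (some (some j))) f / √ZM, fun f g => ?_, fun i f g => ?_⟩
  · have e : ∀ x y w : ℝ, x / w * (y / w) = x * y / w ^ 2 := fun x y w => by ring
    simp only [e, mul_pow, hz2, ht2, hc2]
    rw [PP_apply' f, sum_Hx]
    simp only [map_add, map_sum, map_smul, LinearMap.add_apply, LinearMap.sum_apply,
      LinearMap.smul_apply, smul_eq_mul, ip_hb_PP, ew, one_mul, div_mul_eq_mul_div]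
    field_simp
    ring
  · rw [ip_comm, PP_apply' g, sum_Hx]
    have h0 := ip_hb_zero_mulV i (PP f)
    rw [ip_hb_PP] at h0
    simp only [map_add, map_sum, map_smul, LinearMap.add_apply, LinearMap.sum_apply,
      LinearMap.smul_apply, smul_eq_mul, h0, ip_hb_four_mulV, ip_hb_succ_mulV, ew, one_mul,
      mul_ite, mul_zero, Finset.sum_ite_eq, mem_univ, if_true]
    rw [← hz2, Real.sqrt_sq hz.le]
    field_simp
    ring

lemma lmi (κ α : ℝ) (D : Ix → Ix → ℝ) (g c : Ix → ℝ)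
    (h : ∀ a b, κ * NF a b ≤ QF α D (fun i => cq * g i) (fun i => cq * c i) a b) (X : Ix → SV) :
    κ * ∑ i, ip (PP (X i)) (PP (X i)) ≤ α * ∑ i, ip (PP (X i)) (PP (X i))
      + ∑ p, ∑ i, D p i * ip (PP (X i)) (PP (X p))
      - ∑ p, ∑ i, g i * ip (mulV i (PP (X p))) (PP (X p))
      + ∑ p, ∑ i, c p * ip (mulV i (PP (X i))) (PP (X p)) := by
  obtain ⟨a, s, b, h1, h2⟩ := coords
  have h3 := h (fun p => a (X p)) fun p => b (X p)
  have h4 := h (fun p => s (X p)) fun _ _ => 0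
  have e1 : ∑ i, ip (PP (X i)) (PP (X i)) = NF (fun p => a (X p)) (fun p => b (X p)) +
      NF (fun p => s (X p)) fun _ _ => 0 := by
    simp [h1, NF, sq, sum_add_distrib]
  have e2 : ∑ p, ∑ i, D p i * ip (PP (X i)) (PP (X p)) =
      ∑ p, ∑ i, D p i * (a (X p) * a (X i) + ∑ q, b (X p) q * b (X i) q) +
        ∑ p, ∑ i, D p i * (s (X p) * s (X i)) := by
    simp only [← sum_add_distrib]
    exact sum_congr rfl fun _ _ => sum_congr rfl fun _ _ => by rw [ip_comm, h1]; ring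
  have e3 : ∑ p, ∑ i, g i * ip (mulV i (PP (X p))) (PP (X p)) =
      2 * ∑ p, ∑ i, cq * g i * (a (X p) * b (X p) i) := by
    simp only [h2, mul_sum]
    exact sum_congr rfl fun _ _ => sum_congr rfl fun _ _ => by ring
  have e4 : ∑ p, ∑ i, c p * ip (mulV i (PP (X i))) (PP (X p)) =
      ∑ p, cq * c p * (a (X p) * ∑ i, b (X i) i + ∑ i, a (X i) * b (X p) i) := by
    simp only [h2, mul_sum, ← sum_add_distrib]
    exact sum_congr rfl fun _ _ => sum_congr rfl fun _ _ => by ring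
  simp only [QF, mul_zero, sum_const_zero, add_zero, sub_zero] at h3 h4
  rw [e1, e2, e3, e4]
  linarith

lemma cross : ∃ C : ℝ, 0 < C ∧ ∀ i f g, |ip (mulV i f) g - ip (mulV i (PP f)) (PP g)| ≤
    C * (√(ip (PP f) (PP f)) * √(wq (g - PP g)) + √(wq (f - PP f)) * √(ip (PP g) (PP g))
      + √(wq (f - PP f)) * √(wq (g - PP g))) := by
  refine ⟨1, one_pos, fun i f g => ?_⟩
  have e : ip (mulV i f) g - ip (mulV i (PP f)) (PP g) = ip (PP f) (mulV i (g - PP g)) +
      ip (mulV i (f - PP f)) (PP g) + ip (mulV i (f - PP f)) (g - PP g) := by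
    rw [← ip_mulV]
    simp only [map_sub, LinearMap.sub_apply]
    ring
  rw [e, one_mul]
  refine (abs_add_three _ _ _).trans (add_le_add (add_le_add ?_ ?_) ?_) <;>
    refine (abs_ip_le _ _).trans ?_ <;> gcongr
  exacts [ip_mulV_le _ _, ip_mulV_le _ _, ip_mulV_le _ _, ip_le_wq _]

lemma matr (κ a : ℝ) (M : Ix → Ix → ℝ)
    (h : ∀ ξ : Ix → ℝ, κ * ∑ i, ξ i ^ 2 ≤ a * ∑ i, ξ i ^ 2 + ∑ p, ∑ i, ξ p * ξ i * M p i)
    (m : ℕ) (X : Ix → SV) : κ * ∑ i, ip (X i) (RR m (X i)) ≤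
      a * ∑ i, ip (X i) (RR m (X i)) + ∑ p, ∑ i, M p i * ip (X i) (RR m (X p)) := by
  have key : ∀ Y : Ix → SV, κ * ∑ i, ip (Y i) (Y i) ≤
      a * ∑ i, ip (Y i) (Y i) + ∑ p, ∑ i, M p i * ip (Y i) (Y p) := by
    intro Y
    have i0 : Integrable fun v => ∑ i, Y i v * Y i v :=
      integrable_finsetSum _ fun i _ => integrable_mul _ _
    have i1 : ∀ p, Integrable fun v => ∑ i, M p i * (Y i v * Y p v) := fun p =>
      integrable_finsetSum _ fun i _ => (integrable_mul _ _).const_mul _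
    have i2 : Integrable fun v => ∑ p, ∑ i, M p i * (Y i v * Y p v) :=
      integrable_finsetSum _ fun p _ => i1 p
    simp only [ip_def, ← integral_const_mul]
    simp only [← integral_finsetSum _ fun i _ => integrable_mul (Y i) (Y i),
      ← integral_finsetSum _ fun i _ => (integrable_mul (Y i) (Y _)).const_mul _]
    rw [← integral_finsetSum _ fun p _ => i1 p, ← integral_const_mul, ← integral_const_mul,
      ← integral_add (i0.const_mul a) i2]
    refine integral_mono (i0.const_mul κ) ((i0.const_mul a).add i2) fun v => ?_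
    have := h fun i => Y i v
    have e : ∑ p, ∑ i, Y p v * Y i v * M p i = ∑ p, ∑ i, M p i * (Y i v * Y p v) :=
      Finset.sum_congr rfl fun p _ => Finset.sum_congr rfl fun i _ => by ring
    simp only [sq, e] at this
    exact this
  have := Finset.sum_le_sum (s := words m) fun w _ => key fun i => apW w (X i)
  have e1 : ∑ i, ip (X i) (RR m (X i)) = ∑ w ∈ words m, ∑ i, ip (apW w (X i)) (apW w (X i)) := by
    simp only [ip_RR]
    exact Finset.sum_comm
  have e2 : ∑ p, ∑ i, M p i * ip (X i) (RR m (X p)) =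
      ∑ w ∈ words m, ∑ p, ∑ i, M p i * ip (apW w (X i)) (apW w (X p)) := by
    simp only [ip_RR, Finset.mul_sum]
    rw [Finset.sum_comm (s := words m)]
    exact Finset.sum_congr rfl fun p _ => Finset.sum_comm
  rw [e1, e2]
  simpa only [Finset.sum_add_distrib, ← Finset.mul_sum] using this

end Vel

theorem vStmt : VStmt where
  wq_nonneg := Vel.wq_nonneg
  wq_zero := Vel.wq_zero
  wq_cont := Vel.wq_cont
  wq_le := Vel.wq_le
  comm := Vel.comm
  nv := fun _ i f g => Vel.sum_pair (B := fun p => mulV i p) (Vel.ip_mulV_le i) f g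
  rr := fun m f g => by
    rw [ip_RR]; exact Vel.sum_pair (B := fun p => p) Vel.ip_le_wq f g
  mv := Vel.mv
  top := Vel.top
  low := Vel.low
  split := Vel.split
  lmi := Vel.lmi
  cross := Vel.cross
  matr := Vel.matr

end Pool.Agent.BoltzM
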