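import Pool.Agent.BoltzM.En.Asm
import Pool.Agent.BoltzM.En.Tr
import Pool.Agent.BoltzM.En.Vel
import Pool.Agent.BoltzM.En.Et
import Pool.Agent.BoltzM.En.Interp
import Pool.Agent.BoltzM.Gain.Main
import Pool.Agent.BoltzM.Damp.Main

/-! The two energy inequalities. -/

set_option autoImplicit false

namespace Pool.Agent.BoltzM

variable [Dim]

theorem m4_all : M4Stmt :=
  m4_of vStmt etStmt interp (trStmt_of vStmt) Gain.gainStmt Damp.dampStmt

theorem m4h_all : M4hStmt := m4h_of etStmt interp (trStmt_of vStmt) vStmt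

end Pool.Agent.BoltzM
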