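import Pool.Agent.BoltzM.En.Defs
import Pool.Agent.BoltzM.KK.BB

/-! Module M4a: assembly of the two energy inequalities. -/

set_option autoImplicit false

open MeasureTheory Pool.Agent.BoltzM.BoltzC Finset

noncomputable section

namespace Pool.Agent.BoltzM

variable [Dim]

namespace Asm

lemma sm_tr {F : Fld} (hF : F.Reg) {G : E3 → SV} (hG : Sm G) : Sm (F.tr G) :=
  (Sm.sum univ fun i _ => ((hF.u i).1.smul (hG.dX i)).add
    (hF.c.1.smul ((hG.dX i).clm (mulV i)))).add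
  (((Sm.sum univ fun j _ => (hF.b0 j).1.smul (hG.clm (ap j))).add
    (Sm.sum univ fun i _ => Sm.sum univ fun j _ =>
      (hF.b1 i j).1.smul ((hG.clm (ap j)).clm (mulV i)))).add
    (Sm.sum univ fun i _ => Sm.sum univ fun j _ =>
      (hF.b2 i).1.smul (((hG.clm (ap j)).clm (mulV j)).clm (mulV i)))).neg

lemma En_add {n : ℕ} {θ : ℝ} {ω σ : E3 → ℝ} {A B H : E3 → SV} (hω : Continuous ω)
    (hσ : Continuous σ) (hA : Sm A) (hB : Sm B) (hH : Sm H) :
    En n θ ω σ (fun x => A x + B x) H = En n θ ω σ A H + En n θ ω σ B H := by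
  refine Eq.trans (tint_congr fun x => ?_)
    (tint_add (hω.mul (KK.continuous_bb hσ hA hH)) (hω.mul (KK.continuous_bb hσ hB hH)))
  rw [KK.bb_add_left hA hB, mul_add]

lemma zz_zero (σ : E3 → ℝ) (G : E3 → SV) (x : E3) : zz 0 σ G x = ip (PP (G x)) (PP (G x)) := by
  simp [zz, words]

lemma zz_nonneg (j : ℕ) (σ : E3 → ℝ) (G : E3 → SV) (x : E3) : 0 ≤ zz j σ G x := by
  unfold zz
  rw [pow_mul']
  exact mul_nonneg (sq_nonneg _) (sum_nonneg fun u _ => ip_self_nonneg _)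

lemma continuous_lev {n : ℕ} {θ : ℝ} {σ : E3 → ℝ} (hσ : Continuous σ)
    {φ : E3 → List Ix → ℕ → ℝ} (hφ : ∀ u m, Continuous fun x => φ x u m) :
    Continuous fun x => lev n θ (σ x) (φ x) := by
  unfold lev
  refine continuous_finsetSum _ fun j _ => continuous_finsetSum _ fun m _ => ?_
  exact (continuous_const.mul (hσ.pow _)).mul (continuous_finsetSum _ fun u _ => hφ u m)

lemma continuous_dq (Q : CollOp) : Continuous Q.dq :=
  (continuous_ip.comp (Q.L.continuous.prodMk continuous_id)).add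
    (continuous_ip.comp (continuous_id.prodMk continuous_id))

lemma continuous_yy (Q : CollOp) {n : ℕ} {θ : ℝ} {σ : E3 → ℝ} {G : E3 → SV} (hσ : Continuous σ)
    (hG : Sm G) : Continuous (yy Q n θ σ G) :=
  continuous_lev hσ fun u _ => continuous_finsetSum _ fun w _ =>
    (continuous_dq Q).comp (((hG.sub (hG.clm PP)).dXw u).clm (apW w)).cont

lemma continuous_yw (hV : VStmt) {n : ℕ} {σ : E3 → ℝ} {G : E3 → SV} (hσ : Continuous σ)
    (hG : Sm G) : Continuous (yw n σ G) :=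
  continuous_lev hσ fun u _ => continuous_finsetSum _ fun w _ =>
    hV.wq_cont.comp (((hG.dXw u).sub ((hG.dXw u).clm PP)).clm (apW w)).cont

lemma pow_mul_lev_le {n : ℕ} {θ σ : ℝ} (hθ : 0 ≤ θ) (hθ1 : θ ≤ 1) {φ : List Ix → ℕ → ℝ}
    (h : ∀ u m, 0 ≤ φ u m) : θ ^ n * lev n 1 σ φ ≤ lev n θ σ φ := by
  unfold lev
  rw [mul_sum]
  refine sum_le_sum fun j hj => ?_
  rw [mul_sum]
  refine sum_le_sum fun m hm => ?_
  have h1 : θ ^ n ≤ θ ^ (j + m) :=
    pow_le_pow_of_le_one hθ hθ1 (by have := mem_range.1 hj; have := mem_range.1 hm; omega)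
  have h2 : 0 ≤ σ ^ (2 * j) * ∑ u ∈ words j, φ u m :=
    mul_nonneg (by rw [pow_mul']; positivity) (sum_nonneg fun u _ => h u m)
  rw [one_pow, one_mul, mul_assoc]
  exact mul_le_mul_of_nonneg_right h1 h2

lemma continuous_y8 {n : ℕ} {θ : ℝ} {σ : E3 → ℝ} {G : E3 → SV} (hσ : Continuous σ)
    (hG : Sm G) : Continuous (y8 n θ σ G) :=
  continuous_lev hσ fun u _ => continuous_finsetSum _ fun w _ =>
    have h := ((hG.dXw u).sub ((hG.dXw u).clm PP)).clm (apW w)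
    continuous_ip.comp ((h.clm (Jw 4)).cont.prodMk h.cont)

lemma ip_le_dq (Q : CollOp) (f : SV) : ip f f ≤ Q.dq f := by
  obtain ⟨lam, h1, h2⟩ := Q.gap
  exact le_add_of_nonneg_left ((mul_nonneg h1.le (ip_self_nonneg _)).trans (h2 f))

lemma yw_le (hV : VStmt) (Q : CollOp) {ε : ℝ} (hε : 0 < ε) : ∃ C : ℝ, 0 < C ∧
    ∀ (n : ℕ) (θ : ℝ), 0 ≤ θ → θ ≤ 1 → ∀ (σ : E3 → ℝ) (G : E3 → SV), Sm G → ∀ x,
      θ ^ n * yw n σ G x ≤ ε * y8 n θ σ G x + C * yy Q n θ σ G x := by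
  obtain ⟨C, hC, h⟩ := hV.wq_le ε hε
  refine ⟨C, hC, fun n θ hθ hθ1 σ G hG x => ?_⟩
  refine (pow_mul_lev_le hθ hθ1 fun u m => sum_nonneg fun w _ => hV.wq_nonneg _).trans ?_
  have e : ε * y8 n θ σ G x + C * yy Q n θ σ G x = lev n θ (σ x) fun u m => ∑ w ∈ words m,
      (ε * ip (Jw 4 (apW w (dXw u G x - PP (dXw u G x)))) (apW w (dXw u G x - PP (dXw u G x)))
        + C * Q.dq (apW w (dXw u G x - PP (dXw u G x)))) := by
    simp only [y8, yy, YY, lev, dXw_sub hG (hG.clm PP), dXw_clm hG PP, mul_sum, ← sum_add_distrib]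
    refine sum_congr rfl fun j _ => sum_congr rfl fun m _ => sum_congr rfl fun u _ =>
      sum_congr rfl fun w _ => by ring
  rw [e]
  exact KK.lev_mono hθ fun u m => sum_le_sum fun w _ => (h _).trans
    (add_le_add_right (mul_le_mul_of_nonneg_left (ip_le_dq Q _) hC.le) _)

lemma yw_eq_zero (hV : VStmt) {n : ℕ} {σ : E3 → ℝ} {G : E3 → SV} (hG : Sm G)
    (hP : ∀ x, PP (G x) = G x) (x : E3) : yw n σ G x = 0 := by
  have e : ∀ u, PP (dXw u G x) = dXw u G x := fun u => by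
    have := congrFun (dXw_clm hG PP u) x
    simp only [hP] at this
    exact this.symm
  simp [yw, lev, e, hV.wq_zero]

/-- The transport inequality with the intermediate levels absorbed. -/
lemma tr_abs (hI : InterpStmt) (hT : TrStmt) (K : ℕ → ℝ) (lam : ℝ) (hl : 0 < lam) :
    ∃ n0 : ℕ, ∀ n, n0 ≤ n → ∀ θ : ℝ, 0 < θ → θ ≤ 1 → ∃ C D : ℝ, 0 < C ∧ 0 < D ∧
      ∀ (F : Fld) (ω σ μ ωt σt γ : E3 → ℝ) (G : E3 → SV), F.Reg → F.Bd K σ μ →
        WtBd F K lam ω σ μ ωt σt γ → Continuous ωt → Continuous σt → Continuous γ → Sm G →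
        Per G → tint (et n θ ω σ ωt σt G) + tint (fun x => γ x * bb n θ σ G G x)
          ≤ 2 * En n θ ω σ (F.tr G) G
            + C * tint (fun x => μ x * ω x * ip (PP (G x)) (PP (G x)))
            + D * tint fun x => μ x * ω x * yw n σ G x := by
  obtain ⟨K0, hK⟩ := hT K
  refine ⟨⌈(K0 + 2) / (2 * lam)⌉₊, fun n hn θ hθ hθ1 => ?_⟩
  have hn' : K0 - 2 * n * lam ≤ -2 := by
    have h1 : (K0 + 2) / (2 * lam) ≤ n := (Nat.le_ceil _).trans (by exact_mod_cast hn)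
    rw [div_le_iff₀ (by positivity)] at h1
    linarith
  have hp : 0 < θ ^ n := pow_pos hθ n
  obtain ⟨C, hC, h⟩ := hK n θ (θ ^ n) hθ hθ1 hp
  obtain ⟨C1, hC1, h1⟩ := hI (K 1) n (θ ^ n / C) (by positivity)
  refine ⟨C * C1, C, by positivity, hC, fun F ω σ μ ωt σt γ G hF hB hW c1 c2 c3 hG pG => ?_⟩
  have h2 := h F lam ω σ μ ωt σt γ G hl.le hF hB hW c1 c2 c3 hG pG
  have h3 := mul_le_mul_of_nonneg_left (h1 ω σ μ G hW.hω hW.hσ hW.hμ hG pG) hC.le
  have h4 : 0 ≤ tint fun x => μ x * ω x * zz n σ G x := tint_nonneg fun x =>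
    mul_nonneg (mul_pos (hW.hμ.pos x) (hW.hω.pos x)).le (zz_nonneg _ _ _ _)
  simp only [zz_zero] at h3
  rw [mul_add, ← mul_assoc, ← mul_assoc, mul_div_cancel₀ _ hC.ne'] at h3
  have h5 := mul_le_mul_of_nonneg_right (mul_le_mul_of_nonneg_left hn' hp.le) h4
  linarith

end Asm

open Asm

theorem m4_of (hV : VStmt) (hE : EtStmt) (hI : InterpStmt) (hT : TrStmt) (hG : GainStmt)
    (hS : DampStmt) : M4Stmt := by
  intro Q K lam hl
  obtain ⟨n0, h0⟩ := tr_abs hI hT K lam hl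
  refine ⟨n0, fun n hn => ?_⟩
  obtain ⟨θ1, c, hθ1, hθ1', hc, hg⟩ := hG Q K n
  obtain ⟨θ2, c2, hθ2, -, hc2, hs⟩ := hS K n
  obtain ⟨θ, hθ, t1, t2⟩ : ∃ θ : ℝ, 0 < θ ∧ θ ≤ θ1 ∧ θ ≤ θ2 :=
    ⟨min θ1 θ2, lt_min hθ1 hθ2, min_le_left _ _, min_le_right _ _⟩
  have hθ' := t1.trans hθ1'
  obtain ⟨C, D, hC, hD, h⟩ := h0 n hn θ hθ hθ'
  have hp : 0 < θ ^ n := pow_pos hθ n
  obtain ⟨Cw, hCw, hw⟩ := yw_le hV Q (show 0 < 2 * c2 * θ ^ n / D by positivity)
  refine ⟨θ, D * Cw / (θ ^ n * c), C, c, hθ, hθ', hC, hc,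
    fun ω ωt σ σt g g' hω hσ hgg pg => ?_⟩
  obtain ⟨e1, e2⟩ := hE n θ ω ωt σ σt g g' hω hσ hgg
  refine ⟨_, e1, e2, fun s F μ γ k hF hB hW cγ sk _ bk bμ hk => ?_⟩
  have sg := hgg.sm.slice s
  have sg' := hgg.sm'.slice s
  have cω := hW.hω.sm.cont
  have cσ := hW.hσ.sm.cont
  have sμ := hW.hμ.sm
  have hA : 0 < D * Cw / (θ ^ n * c) := by positivity
  have k0 : ∀ x, 0 ≤ k x := fun x => (mul_pos hA (hW.hμ.pos x)).le.trans (hk x)
  have sL : Sm fun x => k x • Q.L (g s x) := sk.smul (sg.clm Q.L)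
  have sD : Sm fun x => μ x • Ds (g s x) := sμ.smul (sg.clm Ds)
  have cy := (cω.mul sk.cont).mul (continuous_yy Q (n := n) (θ := θ) cσ sg)
  have h1 := h F (ω s) (σ s) μ (ωt s) (σt s) γ (g s) hF hB hW (hω.sm'.cont_slice s)
    (hσ.sm'.cont_slice s) cγ sg (pg s)
  have h2 : c * tint (fun x => ω s x * k x * yy Q n θ (σ s) (g s) x)
      ≤ En n θ (ω s) (σ s) (fun x => k x • Q.L (g s x)) (g s) := by
    rw [← tint_const_mul]
    refine tint_mono (continuous_const.mul cy) (cω.mul (KK.continuous_bb cσ sL sg)) fun x => ?_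
    have := mul_le_mul_of_nonneg_left
      (hg θ hθ t1 (σ s) k (g s) sk sg hW.hσ.pos k0 bk x) (hW.hω.pos x).le
    linarith
  have h3 : D * tint (fun x => μ x * ω s x * yw n (σ s) (g s) x)
      ≤ c * tint (fun x => ω s x * k x * yy Q n θ (σ s) (g s) x)
        + 2 * En n θ (ω s) (σ s) (fun x => μ x • Ds (g s x)) (g s) := by
    have cd : Continuous fun x => 2 * (ω s x * bb n θ (σ s) (fun x => μ x • Ds (g s x)) (g s) x) :=
      continuous_const.mul (cω.mul (KK.continuous_bb cσ sD sg))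
    have cy' : Continuous fun x => c * (ω s x * k x * yy Q n θ (σ s) (g s) x) :=
      continuous_const.mul cy
    rw [En, ← tint_const_mul, ← tint_const_mul, ← tint_const_mul, ← tint_add cy' cd]
    refine tint_mono (continuous_const.mul ((sμ.cont.mul cω).mul (continuous_yw hV cσ sg)))
      (cy'.add cd) fun x => ?_
    have a1 := hw n θ hθ.le hθ' (σ s) (g s) sg x
    have a2 : 0 ≤ yy Q n θ (σ s) (g s) x := KK.lev_nonneg hθ.le fun u m =>
      sum_nonneg fun w _ => (ip_self_nonneg _).trans (ip_le_dq Q _)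
    have a3 : D * Cw * μ x ≤ k x * (θ ^ n * c) := by
      have := hk x
      rwa [div_mul_eq_mul_div, div_le_iff₀ (by positivity)] at this
    have a4 := mul_le_mul_of_nonneg_left a1 (mul_pos hD (hW.hμ.pos x)).le
    have a5 := mul_le_mul_of_nonneg_right a3 a2
    have a7 := mul_le_mul_of_nonneg_left (hs θ hθ t2 (σ s) μ (g s) sμ sg hW.hσ.pos
      (fun y => (hW.hμ.pos y).le) bμ x) hp.le
    have a6 : D * μ x * yw n (σ s) (g s) x ≤ c * k x * yy Q n θ (σ s) (g s) x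
        + 2 * bb n θ (σ s) (fun x => μ x • Ds (g s x)) (g s) x := by
      refine le_of_mul_le_mul_left ?_ hp
      have a9 : D * μ x * (2 * c2 * θ ^ n / D * y8 n θ (σ s) (g s) x) =
          2 * (θ ^ n * (c2 * μ x * y8 n θ (σ s) (g s) x)) := by field_simp
      linarith
    have := mul_le_mul_of_nonneg_left a6 (hW.hω.pos x).le
    linarith
  rw [En_add cω cσ ((sg'.add (sm_tr hF sg)).add sL) sD sg,
    En_add cω cσ (sg'.add (sm_tr hF sg)) sL sg, En_add cω cσ sg' (sm_tr hF sg) sg]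
  linarith

theorem m4h_of (hE : EtStmt) (hI : InterpStmt) (hT : TrStmt) (hV : VStmt) : M4hStmt := by
  intro K lam hl
  obtain ⟨n0, h0⟩ := tr_abs hI hT K lam hl
  refine ⟨n0, fun n hn θ hθ hθ1 => ?_⟩
  obtain ⟨C, D, hC, hD, h⟩ := h0 n hn θ hθ hθ1
  refine ⟨C, hC, fun ω ωt σ σt g g' hω hσ hgg pg => ?_⟩
  obtain ⟨e1, e2⟩ := hE n θ ω ωt σ σt g g' hω hσ hgg
  refine ⟨_, e1, e2, fun s F μ γ hF hB hW cγ hP => ?_⟩
  have sg := hgg.sm.slice s
  have sg' := hgg.sm'.slice s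
  have cω := hW.hω.sm.cont
  have cσ := hW.hσ.sm.cont
  have h1 := h F (ω s) (σ s) μ (ωt s) (σt s) γ (g s) hF hB hW (hω.sm'.cont_slice s)
    (hσ.sm'.cont_slice s) cγ sg (pg s)
  simp only [yw_eq_zero hV sg hP, hP, mul_zero, tint_zero, add_zero] at h1
  have h2 : En n θ (ω s) (σ s) (fun x => PP (F.tr (g s) x)) (g s)
      = En n θ (ω s) (σ s) (F.tr (g s)) (g s) := tint_congr fun x => by
    rw [KK.bb_comm, KK.bb_PP_right sg (sm_tr hF sg) hP, KK.bb_comm]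
  rw [En_add cω cσ sg' ((sm_tr hF sg).clm PP) sg, h2]
  linarith

end Pool.Agent.BoltzM
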