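import Pool.Agent.BoltzM.En.Point
import Pool.Agent.BoltzM.KK.BB

/-!
From fields to jets: the differentiated transport term and the divergence of the flux.
-/

set_option autoImplicit false

open Pool.Agent.BoltzM.BoltzC Finset

noncomputable section

namespace Pool.Agent.BoltzM

variable [Dim]

lemma sm_pow {σ : E3 → ℝ} (hσ : Sm σ) (k : ℕ) : Sm fun y => σ y ^ k := by
  induction k with
  | zero => simpa using Sm.const (1 : ℝ)
  | succ k ih => simpa [pow_succ] using ih.mul hσ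

lemma dX_pow' {σ : E3 → ℝ} (hσ : Sm σ) (k : ℕ) (i : Ix) (x : E3) :
    dX i (fun y => σ y ^ k) x = k * σ x ^ (k - 1) * dX i σ x := by
  apply dX_eq
  have := ((hσ.dif i x).hasDerivAt.fun_pow k).hd
  simpa only [zero_smul, add_zero] using this

lemma sm_ip_clm {H : E3 → SV} (hH : Sm H) (A B : SV →L[ℝ] SV) :
    Sm fun y => ip (A (H y)) (B (H y)) := Sm.bilin ip continuous_ip (hH.clm A) (hH.clm B)

lemma dX_ip_clm {H : E3 → SV} (hH : Sm H) (A B : SV →L[ℝ] SV) (i : Ix) (x : E3) :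
    dX i (fun y => ip (A (H y)) (B (H y))) x =
      ip (A (dX i H x)) (B (H x)) + ip (A (H x)) (B (dX i H x)) := by
  rw [dX_bilin ip continuous_ip (hH.clm A).dif (hH.clm B).dif, dX_clm hH.dif, dX_clm hH.dif]

lemma sm_RR {H : E3 → SV} (hH : Sm H) (m : ℕ) : Sm fun y => ip (H y) (RR m (H y)) :=
  sm_ip_clm hH (ContinuousLinearMap.id ℝ SV) (RR m)

lemma dX_RR {H : E3 → SV} (hH : Sm H) (m : ℕ) (i : Ix) (x : E3) :
    dX i (fun y => ip (H y) (RR m (H y))) x = 2 * ip (dX i H x) (RR m (H x)) := by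
  have := dX_ip_clm hH (ContinuousLinearMap.id ℝ SV) (RR m) i x
  simp only [ContinuousLinearMap.id_apply] at this
  rw [this, ← ip_RR_symm m (H x), ip_comm (RR m (H x))]
  ring

lemma sm_NV {H : E3 → SV} (hH : Sm H) (m : ℕ) (i : Ix) : Sm fun y => NV m i (H y) (H y) :=
  Sm.sum (words m) fun w _ => sm_ip_clm hH ((mulV i).comp (apW w)) (apW w)

lemma dX_NV {H : E3 → SV} (hH : Sm H) (m : ℕ) (i k : Ix) (x : E3) :
    dX k (fun y => NV m i (H y) (H y)) x = 2 * NV m i (dX k H x) (H x) := by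
  have h1 := congrFun (dX_sum (words m)
    (G := fun w y => ip (((mulV i).comp (apW w)) (H y)) (apW w (H y)))
    (fun w _ => (sm_ip_clm hH _ _).dif) k) x
  refine h1.trans ?_
  rw [NV, mul_sum]
  refine sum_congr rfl fun w _ => ?_
  rw [dX_ip_clm hH]
  simp only [ContinuousLinearMap.comp_apply]
  rw [ip_mulV i (apW w (H x)), ip_comm (apW w (H x))]
  ring

lemma ip_dXw_smul {a : E3 → ℝ} {H : E3 → SV} (ha : Sm a) (hH : Sm H) (A : SV →L[ℝ] SV)
    (u : List Ix) (x : E3) (h : SV) :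
    ip (dXw u (fun y => a y • A (H y)) x) h =
      SP u fun p q => dXw p a x * ip (A (dXw q H x)) h := by
  rw [dXw_smul ha (hH.clm A)]
  simp only [map_list_sum_ip, SP, dXw_clm hH, map_smul, LinearMap.smul_apply, smul_eq_mul]

lemma Fld.Reg.tv {F : Fld} (h : F.Reg) (α : TI) : Sm (F.tv α) := by
  rcases α with l | p | p
  · exact (h.b0 l).1
  · exact (h.b1 p.1 p.2).1
  · exact (h.b2 p.1).1

lemma Fld.tr_eq (F : Fld) (G : E3 → SV) : F.tr G = fun x =>
    (∑ i, F.u i x • ContinuousLinearMap.id ℝ SV (dX i G x) + ∑ i, F.c x • mulV i (dX i G x))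
      - ∑ α, F.tv α x • opT α (G x) := by
  funext x
  rw [Fld.tr, Fld.vel_eq, sum_add_distrib, sub_eq_add_neg]
  rfl

lemma Fld.Reg.sm_tr {F : Fld} (h : F.Reg) {G : E3 → SV} (hG : Sm G) : Sm (F.tr G) := by
  rw [F.tr_eq]
  exact ((Sm.sum _ fun i _ => (h.u i).1.smul ((hG.dX i).clm _)).add
    (Sm.sum _ fun i _ => h.c.1.smul ((hG.dX i).clm _))).sub
      (Sm.sum _ fun α _ => (h.tv α).smul (hG.clm _))

/-- The jet of the data at a point. -/
def jet (F : Fld) (ω σ μ ωt σt γ : E3 → ℝ) (G : E3 → SV) (x : E3) : Jet where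
  U i w := dXw w (F.u i) x
  Cc w := dXw w F.c x
  t α w := dXw w (F.tv α) x
  σ := σ x
  ω := ω x
  μ := μ x
  ωt := ωt x
  σt := σt x
  γ := γ x
  dω i := dX i ω x
  dσ i := dX i σ x
  dv i := dX i (fun y => F.u i y * ω y) x
  g u := dXw u G x

variable {F : Fld} {K : ℕ → ℝ} {lam : ℝ} {ω σ μ ωt σt γ : E3 → ℝ} {G : E3 → SV}

lemma jet_H (hB : F.Bd K σ μ) (hW : WtBd F K lam ω σ μ ωt σt γ) (x : E3) :
    (jet F ω σ μ ωt σt γ G x).H K lam where
  σ_pos := hW.hσ.pos x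
  ω_pos := hW.hω.pos x
  μ_pos := hW.hμ.pos x
  hU i w hw := hB.u i w hw x
  hC w := hB.c w (Nat.zero_le _) x
  ht α w := by
    rcases α with l | p | p
    · exact hB.b0 l w (Nat.zero_le _) x
    · exact hB.b1 p.1 p.2 w (Nat.zero_le _) x
    · exact hB.b2 p.1 w (Nat.zero_le _) x
  hdω i := hW.hω.bd i x
  hdσ i := hW.hσ.bd i x
  hω := hW.dω x
  rep := hW.rep x

lemma jet_A (h : F.Reg) (hG : Sm G) (m : ℕ) (u : List Ix) (x : E3) :
    ip (dXw u (F.tr G) x) (RR m (dXw u G x)) = (jet F ω σ μ ωt σt γ G x).A m u := by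
  have s1 : ∀ i, Sm fun x => F.u i x • ContinuousLinearMap.id ℝ SV (dX i G x) := fun i =>
    (h.u i).1.smul ((hG.dX i).clm _)
  have s2 : ∀ i, Sm fun x => F.c x • mulV i (dX i G x) := fun i => h.c.1.smul ((hG.dX i).clm _)
  have s3 : ∀ α, Sm fun x => F.tv α x • opT α (G x) := fun α => (h.tv α).smul (hG.clm _)
  rw [F.tr_eq, dXw_sub ((Sm.sum _ fun i _ => s1 i).add (Sm.sum _ fun i _ => s2 i))
    (Sm.sum _ fun α _ => s3 α), dXw_add (Sm.sum _ fun i _ => s1 i) (Sm.sum _ fun i _ => s2 i),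
    dXw_sum _ fun i _ => s1 i, dXw_sum _ fun i _ => s2 i, dXw_sum _ fun α _ => s3 α]
  simp only [map_sub, map_add, map_sum, LinearMap.sub_apply, LinearMap.add_apply,
    LinearMap.sum_apply]
  unfold Jet.A
  congr 1
  · congr 1
    · refine sum_congr rfl fun i _ => ?_
      rw [ip_dXw_smul (h.u i).1 (hG.dX i)]
      exact SP_congr u _ _ fun a b hab => by rw [← dXw_perm hG hab]; rfl
    · refine sum_congr rfl fun i _ => ?_
      rw [ip_dXw_smul h.c.1 (hG.dX i)]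
      exact SP_congr u _ _ fun a b hab => by rw [← dXw_perm hG hab]; rfl
  · refine sum_congr rfl fun α _ => ?_
    rw [ip_dXw_smul (h.tv α) hG]
    exact SP_congr u _ _ fun a b hab => by rw [← dXw_perm hG hab]; rfl

/-- The flux of one term. -/
def flux (F : Fld) (ω σ : E3 → ℝ) (G : E3 → SV) (j m : ℕ) (i : Ix) (u : List Ix)
    (y : E3) : ℝ :=
  F.u i y * ω y * (σ y ^ (2 * j) * ip (dXw u G y) (RR m (dXw u G y)))
    + ω y * F.c y * (σ y ^ (2 * j) * NV m i (dXw u G y) (dXw u G y))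

lemma sm_flux (h : F.Reg) (hω : Sm ω) (hσ : Sm σ) (hG : Sm G) (j m : ℕ) (i : Ix)
    (u : List Ix) : Sm (flux F ω σ G j m i u) :=
  (((h.u i).1.mul hω).mul ((sm_pow hσ _).mul (sm_RR (hG.dXw u) m))).add
    ((hω.mul h.c.1).mul ((sm_pow hσ _).mul (sm_NV (hG.dXw u) m i)))

lemma per_flux (h : F.Reg) (hω : Per ω) (hσ : Per σ) (hG : Per G) (j m : ℕ) (i : Ix)
    (u : List Ix) : Per (flux F ω σ G j m i u) := fun k x => by
  simp only [flux, (h.u i).2 k x, h.c.2 k x, hω k x, hσ k x, hG.dXw u k x]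

lemma dX_flux (h : F.Reg) (hω : Sm ω) (hσ : Sm σ) (hG : Sm G) (j m : ℕ) (i : Ix)
    (u : List Ix) (x : E3) :
    dX i (flux F ω σ G j m i u) x = (jet F ω σ μ ωt σt γ G x).dJ j m i u := by
  have a1 := (sm_pow hσ (2 * j)).mul (sm_RR (hG.dXw u) m)
  have a2 := (sm_pow hσ (2 * j)).mul (sm_NV (hG.dXw u) m i)
  unfold flux
  rw [dX_add (((h.u i).1.mul hω).mul a1).dif ((hω.mul h.c.1).mul a2).dif,
    dX_mul ((h.u i).1.mul hω).dif a1.dif, dX_mul (hω.mul h.c.1).dif a2.dif,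
    dX_mul (sm_pow hσ _).dif (sm_RR (hG.dXw u) m).dif,
    dX_mul (sm_pow hσ _).dif (sm_NV (hG.dXw u) m i).dif, dX_mul hω.dif h.c.1.dif]
  simp only [dX_pow' hσ, dX_RR (hG.dXw u), dX_NV (hG.dXw u), ← dXw_dX hG]
  push_cast
  rfl

lemma jet_sum (h : F.Reg) (hω : Sm ω) (hσ : Sm σ) (hG : Sm G) (n : ℕ) (θ : ℝ) (x : E3) :
    et n θ ω σ ωt σt G x + γ x * bb n θ σ G G x - 2 * (ω x * bb n θ σ (F.tr G) G x)
      + ∑ j ∈ range (n + 1), ∑ m ∈ range (n + 1 - j), θ ^ (j + m) *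
          ∑ u ∈ words j, ∑ i, dX i (flux F ω σ G j m i u) x
      = ∑ j ∈ range (n + 1), ∑ m ∈ range (n + 1 - j), θ ^ (j + m) *
          ∑ u ∈ words j, (jet F ω σ μ ωt σt γ G x).q j m u := by
  simp only [et, bb, lev, mul_sum, ← sum_add_distrib, ← sum_sub_distrib]
  refine sum_congr rfl fun j _ => sum_congr rfl fun m _ => sum_congr rfl fun u _ => ?_
  rw [jet_A (ω := ω) (σ := σ) (μ := μ) (ωt := ωt) (σt := σt) (γ := γ) h hG, ← mul_sum]
  simp only [dX_flux (μ := μ) (ωt := ωt) (σt := σt) (γ := γ) h hω hσ hG]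
  unfold Jet.q
  change _ = θ ^ (j + m) * ((ωt x * σ x ^ (2 * j) + ω x * (2 * j * σ x ^ (2 * j - 1) * σt x)
    + γ x * σ x ^ (2 * j)) * ip (dXw u G x) (RR m (dXw u G x)) - 2 * ω x * σ x ^ (2 * j) * _ + _)
  ring

end Pool.Agent.BoltzM
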