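import Pool.Agent.BoltzM.En.Jet

/-!
The first order commutator terms: the quadratic form controlled by the repulsivity.
-/

set_option autoImplicit false

open Pool.Agent.BoltzM.BoltzC Finset
open Pool.Agent.MP_187b32_an.PM (NF QF NF_nonneg)

noncomputable section

namespace Pool.Agent.BoltzM

variable [Dim]

namespace Jet

/-- The part of the first order form that comes from the mean velocity. -/
def formU (J : Jet) (m : ℕ) (X : Ix → SV) : ℝ :=
  (J.σt + ∑ i, J.U i [] * J.dσ i) * ∑ p, ip (X p) (RR m (X p))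
    - J.σ * ∑ p, ∑ i, J.U i [p] * ip (X i) (RR m (X p))

/-- The part of the first order form that comes from the thermal speed. -/
def formC (J : Jet) (m : ℕ) (X : Ix → SV) : ℝ :=
  ∑ p, ∑ i, J.Cc [] * J.dσ i * NV m i (X p) (X p)
    - ∑ p, ∑ i, J.σ * J.Cc [p] * ip (mulV i (X i)) (RR m (X p))

variable {J : Jet} {K : ℕ → ℝ} {lam : ℝ}

lemma f1_zero (m : ℕ) : J.f1 0 m [] = 0 := by simp [f1, O1]

lemma sum_f1 (j m : ℕ) : ∑ u ∈ words (j + 1), J.f1 (j + 1) m u =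
    2 * (j + 1 : ℝ) * J.ω * ∑ b ∈ words j, J.σ ^ (2 * j + 1) *
      (J.formU m (fun p => J.g (p :: b)) + J.formC m fun p => J.g (p :: b)) := by
  have e0 : ∀ ψ : Ix → List Ix → List Ix → ℝ,
      ∑ u ∈ words (j + 1), ∑ i, O1 u (ψ i) =
        (j + 1 : ℝ) * ∑ b ∈ words j, ∑ i, ∑ p, ψ i [p] b := by
    intro ψ
    rw [sum_comm, sum_comm (s := words j), mul_sum]
    exact sum_congr rfl fun i _ => sum_O1 j (ψ i)
  have e1 : ∑ u ∈ words (j + 1), ∑ i, (O1 u (J.pU m i) + O1 u (J.pC m i)) =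
      ∑ b ∈ words j, (j + 1 : ℝ) * ∑ i, ∑ p, (J.pU m i [p] b + J.pC m i [p] b) := by
    simp only [sum_add_distrib, e0, ← mul_sum, mul_add]
  have e2 : ∀ φ : List Ix → ℝ,
      ∑ u ∈ words (j + 1), φ u = ∑ b ∈ words j, ∑ p, φ (p :: b) := fun φ => by
    rw [sum_words_succ, sum_comm]
  simp only [f1]
  rw [sum_sub_distrib, ← mul_sum, ← mul_sum, e1, e2, mul_sum, mul_sum, mul_sum, ← sum_sub_distrib]
  refine sum_congr rfl fun b _ => ?_
  rw [show 2 * (j + 1) - 1 = 2 * j + 1 by omega, show 2 * (j + 1) = 2 * j + 1 + 1 by omega,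
    pow_succ]
  simp only [formU, formC, pU, pC, Nn, Mv, List.singleton_append]
  push_cast
  rw [sum_comm (f := fun i p => J.U i [p] * ip (J.g (i :: b)) (RR m (J.g (p :: b)))
    + J.Cc [p] * ip (mulV i (J.g (i :: b))) (RR m (J.g (p :: b))))]
  simp only [mul_add, add_mul, mul_sub, mul_sum, sum_mul, ← sum_add_distrib, ← sum_sub_distrib]
  refine sum_congr rfl fun p _ => ?_
  simp only [sum_add_distrib, sum_sub_distrib]
  ring_nf

lemma formU_nonpos (hV : VStmt) (h : J.H K lam) (hlam : 0 ≤ lam) (m : ℕ) (X : Ix → SV) :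
    J.formU m X ≤ 0 := by
  have := hV.matr 0 (-J.σt - ∑ i, J.U i [] * J.dσ i) (fun p i => J.σ * J.U i [p]) (fun ξ => by
      have h1 := h.rep ξ fun _ _ => 0
      have h2 := mul_nonneg (mul_nonneg (mul_nonneg hlam h.μ_pos.le) h.σ_pos.le)
        (NF_nonneg ξ fun _ _ => 0)
      have h3 := h2.trans h1
      simpa [QF, NF, mul_comm (ξ _ * ξ _)] using h3) m X
  have e : J.σ * ∑ p, ∑ i, J.U i [p] * ip (X i) (RR m (X p)) =
      ∑ p, ∑ i, J.σ * J.U i [p] * ip (X i) (RR m (X p)) := by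
    simp only [mul_sum, mul_assoc]
  unfold formU
  linarith

lemma H.abs_c1 (h : J.H K lam) (i : Ix) :
    |J.Cc [] * J.dσ i| ≤ (K 0 * K 1 + K 1) * J.μ * J.σ := by
  have hσ := h.σ_pos
  have hμ := h.μ_pos
  have k0 := h.K_nonneg 0
  have k1 := h.K_nonneg 1
  have a1 : |J.Cc []| ≤ K 0 * (J.μ * J.σ) := by simpa using h.hC []
  have a2 : |J.dσ i| ≤ K 1 := le_of_mul_le_mul_left (by linarith [h.hdσ i]) hσ
  rw [abs_mul]
  calc |J.Cc []| * |J.dσ i| ≤ K 0 * (J.μ * J.σ) * K 1 := by gcongr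
    _ ≤ _ := by nlinarith [mul_nonneg k1 (mul_pos hμ hσ).le]

lemma H.abs_c2 (h : J.H K lam) (p : Ix) :
    |J.σ * J.Cc [p]| ≤ (K 0 * K 1 + K 1) * J.μ * J.σ := by
  have hσ := h.σ_pos
  have hμ := h.μ_pos
  have k0 := h.K_nonneg 0
  have k1 := h.K_nonneg 1
  have a1 := h.hC [p]
  simp only [List.length_singleton, pow_one] at a1
  rw [abs_mul, abs_of_pos hσ]
  nlinarith [mul_nonneg (mul_nonneg k0 k1) (mul_pos hμ hσ).le]

lemma sum9_le {φ ψ : Ix → Ix → ℝ} {M s : ℝ} (h1 : ∀ p i, s * |φ p i| ≤ M)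
    (h2 : ∀ p i, s * |ψ p i| ≤ M) (hs : 0 ≤ s) :
    s * (∑ p, ∑ i, φ p i - ∑ p, ∑ i, ψ p i) ≤ 2 * dd ^ 2 * M := by
  have a1 : ∀ p i, s * φ p i ≤ M := fun p i =>
    (mul_le_mul_of_nonneg_left (le_abs_self _) hs).trans (h1 p i)
  have a2 : ∀ p i, -(s * ψ p i) ≤ M := fun p i => by
    rw [← mul_neg]
    exact (mul_le_mul_of_nonneg_left (neg_le_abs _) hs).trans (h2 p i)
  have b1 := sum_le_Ix fun p => sum_le_Ix fun i => a1 p i
  have b2 := sum_le_Ix fun p => sum_le_Ix fun i => a2 p i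
  simp only [sum_neg_distrib, ← mul_sum] at b1 b2
  rw [mul_sub]
  linarith

lemma form_le_gen (hV : VStmt) (h : J.H K lam) (hlam : 0 ≤ lam) {j m : ℕ} {Cn a b : ℝ}
    (hCn : 1 ≤ Cn) (hmv : ∀ i f g, |ip (mulV i f) (RR m g)| ≤ Cn * √(WW m f) * √(WW m g))
    (X : Ix → SV) (ha : ∀ p, J.σ ^ (j + 1) * √(WW m (X p)) ≤ a)
    (hb : ∀ p, J.σ ^ (j + 1) * √(WW m (X p)) ≤ b) :
    J.σ ^ (2 * j + 1) * (J.formU m X + J.formC m X)
      ≤ 2 * dd ^ 2 * ((K 0 * K 1 + K 1) * J.μ * Cn * (a * b)) := by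
  have hσ := h.σ_pos
  have hμ := h.μ_pos
  have k0 := h.K_nonneg 0
  have k1 := h.K_nonneg 1
  have hs : 0 ≤ J.σ ^ (2 * j + 1) := by positivity
  have h1 := mul_nonpos_of_nonneg_of_nonpos hs (formU_nonpos hV h hlam m X)
  have h2 : J.σ ^ (2 * j + 1) * J.formC m X ≤
      2 * dd ^ 2 * ((K 0 * K 1 + K 1) * J.μ * Cn * (a * b)) := by
    refine sum9_le (fun p i => ?_) (fun p i => ?_) hs
    · have a1 : |NV m i (X p) (X p)| ≤ Cn * √(WW m (X p)) * √(WW m (X p)) :=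
        (hV.nv m i _ _).trans (by
          rw [mul_assoc]; exact le_mul_of_one_le_left (by positivity) hCn)
      have := key_bound (p := 0) (e := 1) (N' := 2 * j + 1) hσ
        (by positivity : 0 ≤ (K 0 * K 1 + K 1) * J.μ) (by linarith) (Real.sqrt_nonneg _)
        (Real.sqrt_nonneg _) (by simpa only [pow_zero, one_mul, pow_one] using h.abs_c1 i) a1 (ha p) (hb p) (by omega)
      rwa [zero_add] at this
    · have := key_bound (p := 0) (e := 1) (N' := 2 * j + 1) hσ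
        (by positivity : 0 ≤ (K 0 * K 1 + K 1) * J.μ) (by linarith) (Real.sqrt_nonneg _)
        (Real.sqrt_nonneg _) (by simpa only [pow_zero, one_mul, pow_one] using h.abs_c2 p)
        (hmv i (X i) (X p)) (ha i) (hb p) (by omega)
      rwa [zero_add] at this
  rw [mul_add]
  linarith

lemma form_le_top (hV : VStmt) (h : J.H K lam) (hlam : 0 ≤ lam) {j : ℕ} {Cx a b : ℝ}
    (hCx : 0 ≤ Cx) (hab : a ≤ b)
    (hx : ∀ i f g, |ip (mulV i f) g - ip (mulV i (PP f)) (PP g)| ≤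
      Cx * (√(ip (PP f) (PP f)) * √(wq (g - PP g)) + √(wq (f - PP f)) * √(ip (PP g) (PP g))
        + √(wq (f - PP f)) * √(wq (g - PP g))))
    (X : Ix → SV) (hy : ∀ p, J.σ ^ (j + 1) * √(wq (X p - PP (X p))) ≤ a)
    (hz : ∀ p, J.σ ^ (j + 1) * √(ip (PP (X p)) (PP (X p))) ≤ b) :
    J.σ ^ (2 * j + 1) * (J.formU 0 X + J.formC 0 X)
      ≤ -(lam * J.μ * (J.σ ^ (2 * (j + 1)) * ∑ p, ip (PP (X p)) (PP (X p))))
        + 2 * dd ^ 2 * ((K 0 * K 1 + K 1) * J.μ * (3 * Cx) * (a * b)) := by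
  have hσ := h.σ_pos
  have hμ := h.μ_pos
  have k0 := h.K_nonneg 0
  have k1 := h.K_nonneg 1
  have hs : 0 ≤ J.σ ^ (2 * j + 1) := by positivity
  have ha0 : 0 ≤ a := le_trans (by positivity) (hy 0)
  have hb0 : 0 ≤ b := ha0.trans hab
  have eU : J.formU 0 X =
      J.formU 0 (fun p => PP (X p)) + J.formU 0 fun p => X p - PP (X p) := by
    simp only [formU, RR_zero, fun i p => ip_split₂ (X i) (X p), mul_add, sum_add_distrib]
    ring
  have u2 := formU_nonpos hV h hlam 0 fun p => X p - PP (X p)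
  have c1 : J.formU 0 (fun p => PP (X p)) + J.formC 0 (fun p => PP (X p)) ≤
      -(lam * J.μ * J.σ * ∑ p, ip (PP (X p)) (PP (X p))) := by
    have a1 := hV.lmi _ _ _ _ _ h.rep X
    have e : J.σ * ∑ p, ∑ i, J.U i [p] * ip (PP (X i)) (PP (X p)) =
        ∑ p, ∑ i, J.σ * J.U i [p] * ip (PP (X i)) (PP (X p)) := by
      simp only [mul_sum, mul_assoc]
    simp only [formU, formC, NV, words, sum_singleton, apW_nil, RR_zero]
    linarith
  have cr : ∀ i p q, J.σ ^ (2 * j + 1 + 1) *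
      |ip (mulV i (X p)) (X q) - ip (mulV i (PP (X p))) (PP (X q))| ≤ 3 * Cx * (a * b) := by
    intro i p q
    have b1 : (J.σ ^ (j + 1) * √(ip (PP (X p)) (PP (X p)))) *
        (J.σ ^ (j + 1) * √(wq (X q - PP (X q)))) ≤ b * a :=
      mul_le_mul (hz p) (hy q) (by positivity) hb0
    have b2 : (J.σ ^ (j + 1) * √(wq (X p - PP (X p)))) *
        (J.σ ^ (j + 1) * √(ip (PP (X q)) (PP (X q)))) ≤ a * b :=
      mul_le_mul (hy p) (hz q) (by positivity) ha0
    have b3 : (J.σ ^ (j + 1) * √(wq (X p - PP (X p)))) *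
        (J.σ ^ (j + 1) * √(wq (X q - PP (X q)))) ≤ a * b :=
      mul_le_mul (hy p) ((hy q).trans hab) (by positivity) ha0
    calc _ ≤ J.σ ^ (2 * j + 1 + 1) * _ := mul_le_mul_of_nonneg_left (hx i (X p) (X q)) (by positivity)
      _ = Cx * ((J.σ ^ (j + 1) * √(ip (PP (X p)) (PP (X p)))) *
          (J.σ ^ (j + 1) * √(wq (X q - PP (X q)))) + (J.σ ^ (j + 1) * √(wq (X p - PP (X p)))) *
          (J.σ ^ (j + 1) * √(ip (PP (X q)) (PP (X q)))) + (J.σ ^ (j + 1) * √(wq (X p - PP (X p)))) *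
          (J.σ ^ (j + 1) * √(wq (X q - PP (X q))))) := by ring
      _ ≤ Cx * (b * a + a * b + a * b) := by gcongr
      _ = _ := by ring
  have cr' : ∀ c : ℝ, |c| ≤ (K 0 * K 1 + K 1) * J.μ * J.σ → ∀ i p q, J.σ ^ (2 * j + 1) *
      |c * (ip (mulV i (X p)) (X q) - ip (mulV i (PP (X p))) (PP (X q)))|
        ≤ (K 0 * K 1 + K 1) * J.μ * (3 * Cx) * (a * b) := by
    intro c hc i p q
    rw [abs_mul]
    calc _ ≤ J.σ ^ (2 * j + 1) * ((K 0 * K 1 + K 1) * J.μ * J.σ *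
          |ip (mulV i (X p)) (X q) - ip (mulV i (PP (X p))) (PP (X q))|) := by gcongr
      _ = (K 0 * K 1 + K 1) * J.μ * (J.σ ^ (2 * j + 1 + 1) *
          |ip (mulV i (X p)) (X q) - ip (mulV i (PP (X p))) (PP (X q))|) := by ring
      _ ≤ (K 0 * K 1 + K 1) * J.μ * (3 * Cx * (a * b)) :=
          mul_le_mul_of_nonneg_left (cr i p q) (by positivity)
      _ = _ := by ring
  have c2 := sum9_le (fun p i => cr' _ (h.abs_c1 i) i p p) (fun p i => cr' _ (h.abs_c2 p) i i p) hs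
  have eC : J.formC 0 X = J.formC 0 (fun p => PP (X p)) +
      (∑ p, ∑ i, J.Cc [] * J.dσ i *
          (ip (mulV i (X p)) (X p) - ip (mulV i (PP (X p))) (PP (X p))) -
        ∑ p, ∑ i, J.σ * J.Cc [p] *
          (ip (mulV i (X i)) (X p) - ip (mulV i (PP (X i))) (PP (X p)))) := by
    simp only [formC, NV, words, sum_singleton, apW_nil, RR_zero, mul_sub, sum_sub_distrib]
    ring
  have m1 : J.formU 0 (fun p => PP (X p)) + J.formU 0 (fun p => X p - PP (X p))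
      + J.formC 0 (fun p => PP (X p)) ≤ -(lam * J.μ * J.σ * ∑ p, ip (PP (X p)) (PP (X p))) := by
    linarith
  have m2 := mul_le_mul_of_nonneg_left m1 hs
  rw [eU, eC, show 2 * (j + 1) = 2 * j + 1 + 1 by omega, pow_succ _ (2 * j + 1)]
  linarith

end Jet

end Pool.Agent.BoltzM
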